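import Pool.Agent.H53.CGPot

set_option autoImplicit false

namespace Pool.Agent.H53.CG

open Finset

section edges

variable {α : Type*} [DecidableEq α]

/-- the edges of the complete graph on `s` -/
def edges (s : Finset α) : Finset (Sym2 α) := s.offDiag.image Sym2.mk.uncurry

lemma card_edges (s : Finset α) : (edges s).card = s.card.choose 2 := Sym2.card_image_offDiag s

lemma mem_edges (s : Finset α) (u v : α) : s(u, v) ∈ edges s ↔ u ∈ s ∧ v ∈ s ∧ u ≠ v := by
  unfold edges
  constructor
  · intro h
    obtain ⟨p, hp, hpe⟩ := mem_image.mp h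
    obtain ⟨h1, h2, h3⟩ := mem_offDiag.mp hp
    have h4 : s(p.1, p.2) = s(u, v) := hpe
    rcases Sym2.eq_iff.mp h4 with ⟨h5, h6⟩ | ⟨h5, h6⟩
    · subst h5; subst h6; exact ⟨h1, h2, h3⟩
    · subst h5; subst h6; exact ⟨h2, h1, Ne.symm h3⟩
  · rintro ⟨h1, h2, h3⟩
    exact mem_image.mpr ⟨(u, v), mem_offDiag.mpr ⟨h1, h2, h3⟩, rfl⟩

lemma edges_inter (s t : Finset α) : edges s ∩ edges t = edges (s ∩ t) := by
  ext e
  induction e using Sym2.ind with
  | _ u v =>
    simp only [mem_inter, mem_edges]
    tauto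

lemma edges_mono {s t : Finset α} (h : s ⊆ t) : edges s ⊆ edges t := by
  unfold edges
  exact image_subset_image (offDiag_mono h)

end edges

section transversals

variable {q n N : ℕ} (vert : Fin q × Fin n ↪ Fin N)

/-- the embedding of a transversal -/
def va (a : Fin q → Fin n) : Fin q ↪ Fin N where
  toFun i := vert (i, a i)
  inj' i j h := (Prod.mk.inj (vert.injective h)).1

lemma va_apply (a : Fin q → Fin n) (i : Fin q) : va vert a i = vert (i, a i) := rfl

/-- vertex set of a transversal -/
def V (a : Fin q → Fin n) : Finset (Fin N) := univ.map (va vert a)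

lemma mem_V (a : Fin q → Fin n) (u : Fin N) : u ∈ V vert a ↔ ∃ i, vert (i, a i) = u := by
  unfold V
  simp only [mem_map, mem_univ, true_and, va_apply]

lemma card_V (a : Fin q → Fin n) : (V vert a).card = q := by
  unfold V
  simp

/-- number of agreements -/
def agr (a b : Fin q → Fin n) : ℕ := (univ.filter (fun i => a i = b i)).card

lemma card_V_inter (a b : Fin q → Fin n) : (V vert a ∩ V vert b).card = agr a b := by
  unfold agr
  rw [← Finset.card_map (va vert a)]
  congr 1
  ext u
  simp only [mem_inter, mem_V, mem_map, mem_filter, mem_univ, true_and, va_apply]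
  constructor
  · rintro ⟨⟨i, rfl⟩, ⟨j, hj⟩⟩
    have h := vert.injective hj
    have h1 : j = i := (Prod.mk.inj h).1
    subst h1
    exact ⟨j, (Prod.mk.inj h).2.symm, rfl⟩
  · rintro ⟨i, hi, rfl⟩
    exact ⟨⟨i, rfl⟩, ⟨i, by rw [hi]⟩⟩

/-- the edge set of a transversal -/
def A (a : Fin q → Fin n) : Finset (Sym2 (Fin N)) := edges (V vert a)

lemma card_A (a : Fin q → Fin n) : (A vert a).card = q.choose 2 := by
  unfold A; rw [card_edges, card_V]

lemma card_A_inter (a b : Fin q → Fin n) : (A vert a ∩ A vert b).card = (agr a b).choose 2 := by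
  unfold A; rw [edges_inter, card_edges, card_V_inter]

lemma pow_card_A_union (a b : Fin q → Fin n) :
    (1/2 : ℝ) ^ (A vert a ∪ A vert b).card
      = ((1/2 : ℝ) ^ (q.choose 2)) ^ 2 * 2 ^ ((agr a b).choose 2) := by
  have h := Finset.card_union_add_card_inter (A vert a) (A vert b)
  rw [card_A, card_A, card_A_inter] at h
  have h1 : (1/2 : ℝ) ^ (A vert a ∪ A vert b).card * (1/2 : ℝ) ^ ((agr a b).choose 2)
      = ((1/2 : ℝ) ^ (q.choose 2)) ^ 2 := by
    rw [← pow_add, h, pow_add, sq]
  rw [← h1, mul_assoc, ← mul_pow]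
  norm_num

lemma two_le_agr {z : Sym2 (Fin N)} {a b : Fin q → Fin n} (ha : z ∈ A vert a)
    (hb : z ∈ A vert b) : 2 ≤ agr a b := by
  have h1 : 1 ≤ (A vert a ∩ A vert b).card :=
    Finset.card_pos.mpr ⟨z, mem_inter.mpr ⟨ha, hb⟩⟩
  rw [card_A_inter] at h1
  by_contra hcon
  have : (agr a b).choose 2 = 0 := Nat.choose_eq_zero_of_lt (by omega)
  omega

lemma three_le_agr {x y : Sym2 (Fin N)} (hxy : x ≠ y) {a b : Fin q → Fin n}
    (ha : x ∈ A vert a ∧ y ∈ A vert a) (hb : x ∈ A vert b ∧ y ∈ A vert b) : 3 ≤ agr a b := by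
  have h1 : 1 < (A vert a ∩ A vert b).card :=
    Finset.one_lt_card.mpr ⟨x, mem_inter.mpr ⟨ha.1, hb.1⟩, y, mem_inter.mpr ⟨ha.2, hb.2⟩, hxy⟩
  rw [card_A_inter] at h1
  by_contra hcon
  have h2 : agr a b ≤ 2 := by omega
  have : (agr a b).choose 2 ≤ Nat.choose 2 2 := Nat.choose_le_choose 2 h2
  simp at this
  omega

/-- counting -/
lemma sum_agr_le (a : Fin q → Fin n) (F : ℕ → ℝ) (hF : ∀ m, 0 ≤ F m) :
    ∑ b : Fin q → Fin n, F (agr a b)
      ≤ ∑ m ∈ range (q + 1), (q.choose m : ℝ) * (F m * (n : ℝ) ^ (q - m)) := by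
  classical
  have h1 : ∀ b : Fin q → Fin n, F (agr a b)
      ≤ ∑ J ∈ (univ : Finset (Fin q)).powerset, if (∀ i ∈ J, b i = a i) then F J.card else 0 := by
    intro b
    have h2 : F (agr a b) = (if (∀ i ∈ univ.filter (fun i => a i = b i), b i = a i)
        then F (univ.filter (fun i => a i = b i)).card else 0) := by
      rw [if_pos]
      · rfl
      · intro i hi
        exact ((mem_filter.mp hi).2).symm
    rw [h2]
    refine Finset.single_le_sum
      (f := fun J : Finset (Fin q) => if (∀ i ∈ J, b i = a i) then F J.card else 0)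
      (fun J _ => ?_) (mem_powerset.mpr (subset_univ _))
    split_ifs
    · exact hF _
    · exact le_refl _
  refine le_trans (Finset.sum_le_sum fun b _ => h1 b) ?_
  rw [Finset.sum_comm]
  have h3 : ∀ J ∈ (univ : Finset (Fin q)).powerset,
      (∑ b : Fin q → Fin n, if (∀ i ∈ J, b i = a i) then F J.card else 0)
        = F J.card * (n : ℝ) ^ (q - J.card) := by
    intro J _
    rw [← Finset.sum_filter, Finset.sum_const, nsmul_eq_mul, mul_comm]
    congr 1
    have h4 : (univ.filter (fun b : Fin q → Fin n => ∀ i ∈ J, b i = a i))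
        = Fintype.piFinset (fun i => if i ∈ J then {a i} else univ) := by
      ext b
      simp only [mem_filter, mem_univ, true_and, Fintype.mem_piFinset]
      constructor
      · intro h i
        by_cases hi : i ∈ J
        · simp [hi, h i hi]
        · simp [hi]
      · intro h i hi
        have := h i
        simpa [hi] using this
    rw [h4, Fintype.card_piFinset]
    have h5 : ∀ i : Fin q, (if i ∈ J then ({a i} : Finset (Fin n)) else univ).card
        = if i ∈ J then 1 else n := by
      intro i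
      split_ifs <;> simp
    rw [Finset.prod_congr rfl (fun i _ => h5 i), Finset.prod_ite]
    simp only [prod_const_one, one_mul, prod_const]
    have h6 : (univ.filter (fun i : Fin q => i ∉ J)).card = q - J.card := by
      have : (univ.filter (fun i : Fin q => i ∉ J)) = Jᶜ := by
        ext i; simp
      rw [this, Finset.card_compl, Fintype.card_fin]
    rw [h6]
    push_cast
    rfl
  rw [Finset.sum_congr rfl h3]
  have h7 := Finset.sum_powerset_apply_card (fun m => F m * (n : ℝ) ^ (q - m))
    (x := (univ : Finset (Fin q)))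
  rw [h7]
  simp only [card_univ, Fintype.card_fin, nsmul_eq_mul]
  exact le_refl _

end transversals

end Pool.Agent.H53.CG
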