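import Mathlib

set_option autoImplicit false

namespace Pool.Agent.H53.CG

open Finset Filter

lemma key3 (q k N : ℕ) (h : 16 * q ^ 4 * 2 ^ (k + 3) ≤ N ^ 2) :
    (2 * q ^ 2) ^ (k + 3) * 2 ^ ((k + 3).choose 2) * N ^ 3 ≤ 64 * q ^ 6 * N ^ (k + 3) := by
  have hc : (k + 3) * (k + 2) = (k + 3).choose 2 * 2 := by
    have := Nat.add_one_mul_choose_eq (k + 2) 1
    simpa using this
  obtain ⟨c, hc1, hc2⟩ : ∃ c, (k + 3).choose 2 = c + 3 ∧ 2 * c = k * (k + 5) := by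
    refine ⟨(k + 3).choose 2 - 3, ?_, ?_⟩
    · have : 3 ≤ (k + 3).choose 2 := by nlinarith
      omega
    · have h1 : 3 ≤ (k + 3).choose 2 := by nlinarith
      have h2 : 2 * ((k + 3).choose 2 - 3) = (k + 3) * (k + 2) - 6 := by omega
      rw [h2]
      have h3 : (k + 3) * (k + 2) = k * (k + 5) + 6 := by ring
      omega
  have hX : (2 * q ^ 2) ^ k * 2 ^ c ≤ N ^ k := by
    rw [← Nat.pow_le_pow_iff_left (n := 2) (by norm_num)]
    have h1 : ((2 * q ^ 2) ^ k * 2 ^ c) ^ 2 = (4 * q ^ 4 * 2 ^ (k + 5)) ^ k := by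
      rw [mul_pow, ← pow_mul 2 c 2, mul_comm c 2, hc2, mul_pow (4 * q ^ 4), ← pow_mul 2,
        mul_comm k (k + 5), ← pow_mul, mul_comm k 2, pow_mul]
      ring
    have h2 : (N ^ k) ^ 2 = (N ^ 2) ^ k := by rw [← pow_mul, ← pow_mul, mul_comm]
    rw [h1, h2]
    apply Nat.pow_le_pow_left
    calc 4 * q ^ 4 * 2 ^ (k + 5) = 16 * q ^ 4 * 2 ^ (k + 3) := by
          rw [show k + 5 = (k + 3) + 2 by ring, pow_add 2 (k + 3) 2]; ring
      _ ≤ N ^ 2 := h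
  calc (2 * q ^ 2) ^ (k + 3) * 2 ^ ((k + 3).choose 2) * N ^ 3
      = 64 * q ^ 6 * N ^ 3 * ((2 * q ^ 2) ^ k * 2 ^ c) := by
        rw [hc1, pow_add, pow_add]; ring
    _ ≤ 64 * q ^ 6 * N ^ 3 * N ^ k := Nat.mul_le_mul_left _ hX
    _ = 64 * q ^ 6 * N ^ (k + 3) := by rw [pow_add]; ring

lemma key2 (q k N : ℕ) (h : 16 * q ^ 4 * 2 ^ (k + 2) ≤ N ^ 2) :
    (2 * q ^ 2) ^ (k + 2) * 2 ^ ((k + 2).choose 2) * N ^ 2 ≤ 8 * q ^ 4 * N ^ (k + 2) := by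
  have hc : (k + 2) * (k + 1) = (k + 2).choose 2 * 2 := by
    have := Nat.add_one_mul_choose_eq (k + 1) 1
    simpa using this
  obtain ⟨c, hc1, hc2⟩ : ∃ c, (k + 2).choose 2 = c + 1 ∧ 2 * c = k * (k + 3) := by
    refine ⟨(k + 2).choose 2 - 1, ?_, ?_⟩
    · have : 1 ≤ (k + 2).choose 2 := by nlinarith
      omega
    · have h1 : 1 ≤ (k + 2).choose 2 := by nlinarith
      have h2 : 2 * ((k + 2).choose 2 - 1) = (k + 2) * (k + 1) - 2 := by omega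
      rw [h2]
      have h3 : (k + 2) * (k + 1) = k * (k + 3) + 2 := by ring
      omega
  have hX : (2 * q ^ 2) ^ k * 2 ^ c ≤ N ^ k := by
    rw [← Nat.pow_le_pow_iff_left (n := 2) (by norm_num)]
    have h1 : ((2 * q ^ 2) ^ k * 2 ^ c) ^ 2 = (4 * q ^ 4 * 2 ^ (k + 3)) ^ k := by
      rw [mul_pow, ← pow_mul 2 c 2, mul_comm c 2, hc2, mul_pow (4 * q ^ 4), ← pow_mul 2,
        mul_comm k (k + 3), ← pow_mul, mul_comm k 2, pow_mul]
      ring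
    have h2 : (N ^ k) ^ 2 = (N ^ 2) ^ k := by rw [← pow_mul, ← pow_mul, mul_comm]
    rw [h1, h2]
    apply Nat.pow_le_pow_left
    calc 4 * q ^ 4 * 2 ^ (k + 3) ≤ 16 * q ^ 4 * 2 ^ (k + 2) := by
          rw [show k + 3 = (k + 2) + 1 by ring, pow_succ 2 (k + 2)]
          nlinarith [Nat.zero_le (q ^ 4 * 2 ^ (k + 2))]
      _ ≤ N ^ 2 := h
  calc (2 * q ^ 2) ^ (k + 2) * 2 ^ ((k + 2).choose 2) * N ^ 2
      = 8 * q ^ 4 * N ^ 2 * ((2 * q ^ 2) ^ k * 2 ^ c) := by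
        rw [hc1, pow_add, pow_add]; ring
    _ ≤ 8 * q ^ 4 * N ^ 2 * N ^ k := Nat.mul_le_mul_left _ hX
    _ = 8 * q ^ 4 * N ^ (k + 2) := by rw [pow_add]; ring

lemma term_le {q n N m : ℕ} (hN : 0 < N) (hn : 0 < n) (hqn : N ≤ 2 * q * n) :
    (q.choose m : ℝ) * 2 ^ (m.choose 2) / (n : ℝ) ^ m
      ≤ ((2 * q ^ 2) ^ m * 2 ^ (m.choose 2) : ℝ) / (N : ℝ) ^ m := by
  have hN' : (0 : ℝ) < N := by exact_mod_cast hN
  have hn' : (0 : ℝ) < n := by exact_mod_cast hn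
  rw [div_le_div_iff₀ (by positivity) (by positivity)]
  have h1 : (q.choose m : ℝ) ≤ (q : ℝ) ^ m := by exact_mod_cast Nat.choose_le_pow q m
  have h2 : (N : ℝ) ^ m ≤ (2 * q * n : ℝ) ^ m := by
    apply pow_le_pow_left₀ (le_of_lt hN')
    exact_mod_cast hqn
  calc (q.choose m : ℝ) * 2 ^ (m.choose 2) * (N : ℝ) ^ m
      ≤ (q : ℝ) ^ m * 2 ^ (m.choose 2) * (2 * q * n : ℝ) ^ m := by gcongr
    _ = (2 * q ^ 2) ^ m * 2 ^ (m.choose 2) * (n : ℝ) ^ m := by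
        have : ((2 : ℝ) * q ^ 2) ^ m * (n : ℝ) ^ m = (q : ℝ) ^ m * (2 * q * n : ℝ) ^ m := by
          rw [← mul_pow, ← mul_pow]; congr 1; ring
        linear_combination -(2 : ℝ) ^ (m.choose 2) * this

lemma term3 {q n N m : ℕ} (hN : 0 < N) (hn : 0 < n) (hqn : N ≤ 2 * q * n) (hm : 3 ≤ m)
    (hmq : m ≤ q) (h2 : 16 * q ^ 4 * 2 ^ q ≤ N ^ 2) :
    (q.choose m : ℝ) * 2 ^ (m.choose 2) / (n : ℝ) ^ m ≤ 64 * q ^ 6 / (N : ℝ) ^ 3 := by
  refine le_trans (term_le hN hn hqn) ?_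
  have hN' : (0 : ℝ) < N := by exact_mod_cast hN
  obtain ⟨k, rfl⟩ : ∃ k, m = k + 3 := ⟨m - 3, by omega⟩
  have h3 : 16 * q ^ 4 * 2 ^ (k + 3) ≤ N ^ 2 :=
    le_trans (Nat.mul_le_mul_left _ (Nat.pow_le_pow_right (by norm_num) hmq)) h2
  rw [div_le_div_iff₀ (by positivity) (by positivity)]
  exact_mod_cast key3 q k N h3

lemma term2 {q n N m : ℕ} (hN : 0 < N) (hn : 0 < n) (hqn : N ≤ 2 * q * n) (hm : 2 ≤ m)
    (hmq : m ≤ q) (h2 : 16 * q ^ 4 * 2 ^ q ≤ N ^ 2) :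
    (q.choose m : ℝ) * 2 ^ (m.choose 2) / (n : ℝ) ^ m ≤ 8 * q ^ 4 / (N : ℝ) ^ 2 := by
  refine le_trans (term_le hN hn hqn) ?_
  have hN' : (0 : ℝ) < N := by exact_mod_cast hN
  obtain ⟨k, rfl⟩ : ∃ k, m = k + 2 := ⟨m - 2, by omega⟩
  have h3 : 16 * q ^ 4 * 2 ^ (k + 2) ≤ N ^ 2 :=
    le_trans (Nat.mul_le_mul_left _ (Nat.pow_le_pow_right (by norm_num) hmq)) h2
  rw [div_le_div_iff₀ (by positivity) (by positivity)]
  exact_mod_cast key2 q k N h3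

/-- coefficient attached to the number of agreements -/
noncomputable def cf (lam1 lam2 : ℝ) (m : ℕ) : ℝ :=
  (if 3 ≤ m then lam2 else 0) + (if 2 ≤ m then lam1 else 0)

lemma sum_bound {q n N : ℕ} (hN : 2 ≤ N) (hn : 0 < n) (hqn : N ≤ 2 * q * n ∨ q = 0)
    (h1 : (q + 1) * (64 * q ^ 6) ≤ N) (h2 : 16 * q ^ 4 * 2 ^ q ≤ N ^ 2)
    (lam1 lam2 : ℝ) (hl1 : 0 < lam1) (hl2 : 0 < lam2) :
    ∑ m ∈ range (q + 1), (q.choose m : ℝ) * ((cf lam1 lam2 m * 2 ^ (m.choose 2))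
      * (n : ℝ) ^ (q - m)) ≤ (n : ℝ) ^ q * (lam2 / (N : ℝ) ^ 2 + lam1 / 16) := by
  have hn' : (0 : ℝ) < n := by exact_mod_cast hn
  have hN' : (0 : ℝ) < N := by exact_mod_cast (by omega : 0 < N)
  have hN2 : (2 : ℝ) ≤ N := by exact_mod_cast hN
  have hterm : ∀ m ∈ range (q + 1), (q.choose m : ℝ) * ((cf lam1 lam2 m * 2 ^ (m.choose 2))
      * (n : ℝ) ^ (q - m))
      ≤ (n : ℝ) ^ q * (lam2 * (64 * q ^ 6 / (N : ℝ) ^ 3) + lam1 * (8 * q ^ 4 / (N : ℝ) ^ 2)) := by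
    intro m hm
    have hmq : m ≤ q := by
      have := mem_range.mp hm
      omega
    have hpow : (n : ℝ) ^ (q - m) = (n : ℝ) ^ q / (n : ℝ) ^ m := by
      rw [eq_div_iff (by positivity), ← pow_add]
      congr 1
      omega
    have heq : (q.choose m : ℝ) * ((cf lam1 lam2 m * 2 ^ (m.choose 2)) * (n : ℝ) ^ (q - m))
        = (n : ℝ) ^ q * (cf lam1 lam2 m *
          ((q.choose m : ℝ) * 2 ^ (m.choose 2) / (n : ℝ) ^ m)) := by
      rw [hpow]; ring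
    rw [heq]
    apply mul_le_mul_of_nonneg_left _ (by positivity)
    unfold cf
    rw [add_mul]
    apply add_le_add
    · split_ifs with h3
      · have hq0 : q ≠ 0 := by omega
        exact mul_le_mul_of_nonneg_left
          (term3 (by omega) hn (by tauto) h3 hmq h2) hl2.le
      · rw [zero_mul]; positivity
    · split_ifs with h3
      · have hq0 : q ≠ 0 := by omega
        exact mul_le_mul_of_nonneg_left
          (term2 (by omega) hn (by tauto) h3 hmq h2) hl1.le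
      · rw [zero_mul]; positivity
  refine le_trans (Finset.sum_le_sum hterm) ?_
  rw [Finset.sum_const, card_range, nsmul_eq_mul]
  have h1' : ((q : ℝ) + 1) * (64 * q ^ 6) ≤ N := by exact_mod_cast h1
  have h3' : ((q : ℝ) + 1) * (128 * q ^ 4) ≤ (N : ℝ) ^ 2 := by
    rcases Nat.eq_zero_or_pos q with h | h
    · subst h; norm_num
    · have hq1 : (1 : ℝ) ≤ q := by exact_mod_cast h
      have h4 : (q : ℝ) ^ 4 ≤ (q : ℝ) ^ 6 := pow_le_pow_right₀ hq1 (by norm_num)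
      calc ((q : ℝ) + 1) * (128 * q ^ 4) ≤ ((q : ℝ) + 1) * (128 * q ^ 6) := by
            apply mul_le_mul_of_nonneg_left _ (by positivity)
            linarith
        _ = 2 * (((q : ℝ) + 1) * (64 * q ^ 6)) := by ring
        _ ≤ 2 * N := by linarith
        _ ≤ (N : ℝ) ^ 2 := by nlinarith
  have e1 : ((q : ℝ) + 1) * (lam2 * (64 * q ^ 6 / (N : ℝ) ^ 3)) ≤ lam2 / (N : ℝ) ^ 2 := by
    have : ((q : ℝ) + 1) * (lam2 * (64 * q ^ 6 / (N : ℝ) ^ 3))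
        = lam2 * (((q : ℝ) + 1) * (64 * q ^ 6)) / (N : ℝ) ^ 3 := by ring
    rw [this, div_le_div_iff₀ (by positivity) (by positivity)]
    calc lam2 * (((q : ℝ) + 1) * (64 * q ^ 6)) * (N : ℝ) ^ 2 ≤ lam2 * N * (N : ℝ) ^ 2 := by
          gcongr
      _ = lam2 * (N : ℝ) ^ 3 := by ring
  have e2 : ((q : ℝ) + 1) * (lam1 * (8 * q ^ 4 / (N : ℝ) ^ 2)) ≤ lam1 / 16 := by
    have : ((q : ℝ) + 1) * (lam1 * (8 * q ^ 4 / (N : ℝ) ^ 2))
        = lam1 * (((q : ℝ) + 1) * (128 * q ^ 4)) / (16 * (N : ℝ) ^ 2) := by ring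
    rw [this, div_le_div_iff₀ (by positivity) (by positivity)]
    calc lam1 * (((q : ℝ) + 1) * (128 * q ^ 4)) * 16 ≤ lam1 * (N : ℝ) ^ 2 * 16 := by
          gcongr
      _ = lam1 * (16 * (N : ℝ) ^ 2) := by ring
  calc ((q + 1 : ℕ) : ℝ) * ((n : ℝ) ^ q * (lam2 * (64 * q ^ 6 / (N : ℝ) ^ 3)
        + lam1 * (8 * q ^ 4 / (N : ℝ) ^ 2)))
      = (n : ℝ) ^ q * (((q : ℝ) + 1) * (lam2 * (64 * q ^ 6 / (N : ℝ) ^ 3))
        + ((q : ℝ) + 1) * (lam1 * (8 * q ^ 4 / (N : ℝ) ^ 2))) := by push_cast; ring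
    _ ≤ (n : ℝ) ^ q * (lam2 / (N : ℝ) ^ 2 + lam1 / 16) := by
        apply mul_le_mul_of_nonneg_left _ (by positivity)
        linarith

/-- The asymptotic part. -/
lemma eventually_ok (ε : ℝ) (hε : 0 < ε) : ∃ N₀ : ℕ, ∀ N : ℕ, N₀ ≤ N → 2 ≤ N ∧ ∀ q : ℕ,
    (q : ℝ) ≤ (2 - ε) * Real.logb 2 (N : ℝ) →
      (q + 1) * (64 * q ^ 6) ≤ N ∧ 16 * q ^ 4 * 2 ^ q ≤ N ^ 2 := by
  have hlog2 : 0 < Real.log 2 := Real.log_pos (by norm_num)
  -- first condition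
  have h1 : ∀ᶠ x : ℝ in atTop, 3 * 64 * 64 * (Real.logb 2 x) ^ 7 ≤ x := by
    have h := (Real.isLittleO_pow_log_id_atTop (n := 7)).bound
      (c := (Real.log 2) ^ 7 / (3 * 64 * 64)) (by positivity)
    filter_upwards [h, eventually_ge_atTop (1 : ℝ)] with x hx hx1
    have hlx : 0 ≤ Real.log x := Real.log_nonneg hx1
    simp only [id, Real.norm_eq_abs] at hx
    rw [abs_of_nonneg (by positivity), abs_of_nonneg (by linarith)] at hx
    unfold Real.logb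
    rw [div_pow]
    calc 3 * 64 * 64 * (Real.log x ^ 7 / Real.log 2 ^ 7)
        ≤ 3 * 64 * 64 * (((Real.log 2) ^ 7 / (3 * 64 * 64) * x) / Real.log 2 ^ 7) := by gcongr
      _ = x := by field_simp
  have h2 : ∀ᶠ x : ℝ in atTop, 256 * (Real.logb 2 x) ^ 4 ≤ x ^ ε := by
    have h := (isLittleO_log_rpow_rpow_atTop (s := ε) 4 hε).bound
      (c := (Real.log 2) ^ 4 / 256) (by positivity)
    filter_upwards [h, eventually_ge_atTop (1 : ℝ)] with x hx hx1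
    have hlx : 0 ≤ Real.log x := Real.log_nonneg hx1
    have hxe : 0 ≤ x ^ ε := Real.rpow_nonneg (by linarith) _
    have h4 : Real.log x ^ (4 : ℝ) = Real.log x ^ 4 := by
      rw [← Real.rpow_natCast]; norm_num
    rw [h4, Real.norm_eq_abs, Real.norm_eq_abs, abs_of_nonneg (by positivity),
      abs_of_nonneg hxe] at hx
    unfold Real.logb
    rw [div_pow]
    calc 256 * (Real.log x ^ 4 / Real.log 2 ^ 4)
        ≤ 256 * (((Real.log 2) ^ 4 / 256 * x ^ ε) / Real.log 2 ^ 4) := by gcongr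
      _ = x ^ ε := by field_simp
  obtain ⟨x₀, hx₀⟩ := (h1.and h2).exists_forall_of_atTop
  refine ⟨max 2 ⌈x₀⌉₊, fun N hN => ?_⟩
  have hN2 : 2 ≤ N := le_trans (le_max_left _ _) hN
  refine ⟨hN2, fun q hq => ?_⟩
  have hx : x₀ ≤ (N : ℝ) :=
    le_trans (Nat.le_ceil x₀) (by exact_mod_cast le_trans (le_max_right _ _) hN)
  obtain ⟨c1, c2⟩ := hx₀ N hx
  have hN2' : (2 : ℝ) ≤ N := by exact_mod_cast hN2
  set L := Real.logb 2 (N : ℝ) with hL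
  have hL1 : 1 ≤ L := by
    rw [hL, Real.le_logb_iff_rpow_le (by norm_num) (by linarith)]
    simpa using hN2'
  have hq2 : (q : ℝ) ≤ 2 * L := by nlinarith
  have hq0 : (0 : ℝ) ≤ q := Nat.cast_nonneg q
  constructor
  · have : ((q : ℝ) + 1) * (64 * (q : ℝ) ^ 6) ≤ N := by
      calc ((q : ℝ) + 1) * (64 * (q : ℝ) ^ 6) ≤ (3 * L) * (64 * (2 * L) ^ 6) := by
            apply mul_le_mul
            · linarith
            · gcongr
            · positivity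
            · positivity
        _ = 3 * 64 * 64 * L ^ 7 := by ring
        _ ≤ N := c1
    exact_mod_cast this
  · have h3 : (2 : ℝ) ^ q ≤ (N : ℝ) ^ (2 - ε) := by
      rw [← Real.rpow_natCast]
      calc (2 : ℝ) ^ (q : ℝ) ≤ (2 : ℝ) ^ ((2 - ε) * L) :=
            Real.rpow_le_rpow_of_exponent_le (by norm_num) hq
        _ = (N : ℝ) ^ (2 - ε) := by
            rw [mul_comm, Real.rpow_mul (by norm_num), hL,
              Real.rpow_logb (by norm_num) (by norm_num) (by linarith)]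
    have h4 : 16 * (q : ℝ) ^ 4 ≤ (N : ℝ) ^ ε := by
      calc 16 * (q : ℝ) ^ 4 ≤ 16 * (2 * L) ^ 4 := by gcongr
        _ = 256 * L ^ 4 := by ring
        _ ≤ _ := c2
    have h5 : 16 * (q : ℝ) ^ 4 * 2 ^ q ≤ (N : ℝ) ^ 2 := by
      calc 16 * (q : ℝ) ^ 4 * 2 ^ q ≤ (N : ℝ) ^ ε * (N : ℝ) ^ (2 - ε) := by
            apply mul_le_mul h4 h3 (by positivity) (Real.rpow_nonneg (by linarith) _)
        _ = (N : ℝ) ^ 2 := by
            rw [← Real.rpow_add (by linarith)]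
            rw [show ε + (2 - ε) = ((2 : ℕ) : ℝ) by push_cast; ring, Real.rpow_natCast]
    exact_mod_cast h5

end Pool.Agent.H53.CG
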