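import Pool.Agent.H53.CGPot

set_option autoImplicit false

namespace Pool.Agent.H53.CG

open Finset

variable {E : Type*} [DecidableEq E]

open Classical in
/-- Update of the recorded position after a round (`x` taken by Red, `y` taken by Blue);
`ty e` means that Red wants to own `e`. -/
noncomputable def upd (ty : E → Prop) (s : Finset E × Finset E) (x y : E) :
    Finset E × Finset E :=
  if ty x then (if ty y then (insert x s.1, insert y s.2) else s)
  else (insert y s.1, insert x s.2)

noncomputable def st (ty : E → Prop) (e : ℕ → E) : ℕ → Finset E × Finset E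
  | 0 => (∅, ∅)
  | t + 1 => upd ty (st ty e t) (e (2 * t)) (e (2 * t + 1))

def cl (e : ℕ → E) (k : ℕ) : Finset E := (range k).image e

open Classical in
noncomputable def pick (ty : E → Prop) (D : E → ℝ) (U : Finset E) (dflt : E) : E :=
  if h : (U.filter ty).Nonempty then (exists_max_image (U.filter ty) D h).choose
  else if h : U.Nonempty then (exists_min_image U D h).choose
  else dflt

lemma pick_mem (ty : E → Prop) (D : E → ℝ) (U : Finset E) (dflt : E) (hU : U.Nonempty) :
    pick ty D U dflt ∈ U := by
  classical
  unfold pick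
  split_ifs with h
  · exact (mem_filter.mp (exists_max_image (U.filter ty) D h).choose_spec.1).1
  · exact (exists_min_image U D hU).choose_spec.1

lemma pick_max (ty : E → Prop) (D : E → ℝ) (U : Finset E) (dflt : E) (hU : U.Nonempty)
    (hp : ty (pick ty D U dflt)) (y : E) (hy : y ∈ U) (hty : ty y) :
    D y ≤ D (pick ty D U dflt) := by
  classical
  unfold pick at *
  split_ifs at * with h
  · exact (exists_max_image (U.filter ty) D h).choose_spec.2 y (mem_filter.mpr ⟨hy, hty⟩)
  · exact absurd ⟨y, mem_filter.mpr ⟨hy, hty⟩⟩ h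

lemma pick_none (ty : E → Prop) (D : E → ℝ) (U : Finset E) (dflt : E)
    (hp : ¬ ty (pick ty D U dflt)) (y : E) (hy : y ∈ U) : ¬ ty y := by
  classical
  intro hty
  apply hp
  have h : (U.filter ty).Nonempty := ⟨y, mem_filter.mpr ⟨hy, hty⟩⟩
  unfold pick
  rw [dif_pos h]
  exact (mem_filter.mp (exists_max_image (U.filter ty) D h).choose_spec.1).2

lemma pick_min (ty : E → Prop) (D : E → ℝ) (U : Finset E) (dflt : E) (hU : U.Nonempty)
    (hp : ¬ ty (pick ty D U dflt)) (y : E) (hy : y ∈ U) :
    D (pick ty D U dflt) ≤ D y := by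
  classical
  have hn : ¬ (U.filter ty).Nonempty := by
    rintro ⟨z, hz⟩
    exact pick_none ty D U dflt hp z (mem_filter.mp hz).1 (mem_filter.mp hz).2
  unfold pick
  rw [dif_neg hn, dif_pos hU]
  exact (exists_min_image U D hU).choose_spec.2 y hy

lemma cl_mono (e : ℕ → E) {j k : ℕ} (h : j ≤ k) : cl e j ⊆ cl e k :=
  image_subset_image (range_subset_range.mpr h)

lemma mem_cl (e : ℕ → E) {j k : ℕ} (h : j < k) : e j ∈ cl e k :=
  mem_image_of_mem e (mem_range.mpr h)

lemma cl_card_le (e : ℕ → E) (k : ℕ) : (cl e k).card ≤ k := by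
  unfold cl
  exact le_trans card_image_le (by simp)

lemma sdiff_cl_nonempty (X : Finset E) (e : ℕ → E) {k : ℕ} (hk : k < X.card) :
    (X \ cl e k).Nonempty := by
  rw [← Finset.card_pos]
  have h1 := Finset.le_card_sdiff (cl e k) X
  have h2 := cl_card_le e k
  omega

lemma st_congr (ty : E → Prop) (e e' : ℕ → E) (t : ℕ) (h : ∀ j < 2 * t, e j = e' j) :
    st ty e t = st ty e' t := by
  induction t with
  | zero => rfl
  | succ t ih =>
    have h1 := ih (fun j hj => h j (by omega))
    simp only [st]
    rw [h1, h (2 * t) (by omega), h (2 * t + 1) (by omega)]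

lemma cl_congr (e e' : ℕ → E) (k : ℕ) (h : ∀ j < k, e j = e' j) : cl e k = cl e' k := by
  unfold cl
  exact Finset.image_congr (fun j hj => h j (by simpa using hj))

variable {I : Type*} [Fintype I]

theorem play (X : Finset E) (ty : E → Prop) (A : I → Finset E) (hA : ∀ a, A a ⊆ X)
    (c : I → I → ℝ) (hc : ∀ a b, 0 ≤ c a b) (lam1 lam2 : ℝ) (hl1 : 0 < lam1) (hl2 : 0 < lam2)
    (hcl1 : ∀ z a b, z ∈ A a → z ∈ A b → lam1 ≤ c a b)
    (hcl2 : ∀ x y, x ≠ y → ∀ a b, (x ∈ A a ∧ y ∈ A a) → (x ∈ A b ∧ y ∈ A b) → lam2 ≤ c a b)
    (hpos : ((X.card : ℝ) / 2) * (1 / (4 * lam2)) + 1 / (4 * lam1)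
      < pot (coef c) (sets A) ∅ ∅)
    (dflt : E) (e : ℕ → E)
    (he0 : ∀ k < X.card, Even k → e k = pick ty
      (D1 (coef c) (sets A) (st ty e (k / 2)).1 (st ty e (k / 2)).2) (X \ cl e k) dflt)
    (he1 : ∀ k < X.card, ¬ Even k → e k ∈ X \ cl e k) :
    (∀ k < X.card, e k ∈ X \ cl e k) ∧
      ∃ a, ∀ z ∈ A a, ∃ k < X.card, e k = z ∧ (Even k ↔ ty z) := by
  classical
  have hlegal : ∀ k < X.card, e k ∈ X \ cl e k := by
    intro k hk
    by_cases hev : Even k
    · rw [he0 k hk hev]
      exact pick_mem _ _ _ _ (sdiff_cl_nonempty X e hk)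
    · exact he1 k hk hev
  refine ⟨hlegal, ?_⟩
  have hsub : cl e X.card ⊆ X := by
    intro z hz
    obtain ⟨k, hk, rfl⟩ := mem_image.mp hz
    exact (mem_sdiff.mp (hlegal k (mem_range.mp hk))).1
  have hinj : Set.InjOn e (range X.card) := by
    intro j hj k hk hjk
    by_contra hne
    rcases lt_or_gt_of_ne hne with h | h
    · exact (mem_sdiff.mp (hlegal k (by simpa using hk))).2 (hjk ▸ mem_cl e h)
    · exact (mem_sdiff.mp (hlegal j (by simpa using hj))).2 (hjk ▸ mem_cl e h)
  have hcard : (cl e X.card).card = X.card := by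
    unfold cl
    rw [Finset.card_image_of_injOn hinj, card_range]
  have hall : cl e X.card = X := Finset.eq_of_subset_of_card_le hsub (by omega)
  -- the invariant
  have hinv : ∀ t : ℕ, 2 * t ≤ X.card →
      (st ty e t).1 ⊆ cl e (2 * t) ∧
      (∀ k < 2 * t, (ty (e k) ∧ ¬ Even k) ∨ (¬ ty (e k) ∧ Even k) → e k ∈ (st ty e t).2) ∧
      pot (coef c) (sets A) ∅ ∅ - t * (1 / (4 * lam2))
        ≤ pot (coef c) (sets A) (st ty e t).1 (st ty e t).2 := by
    intro t
    induction t with
    | zero =>
      intro _
      refine ⟨by simp [st], by simp, ?_⟩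
      simp [st]
    | succ t ih =>
      intro ht
      obtain ⟨hC, hK, hL⟩ := ih (by omega)
      set C := (st ty e t).1 with hCdef
      set K := (st ty e t).2 with hKdef
      have hx := hlegal (2 * t) (by omega)
      have hy := hlegal (2 * t + 1) (by omega)
      have hxe := he0 (2 * t) (by omega) (even_two_mul t)
      rw [show 2 * t / 2 = t by omega] at hxe
      rw [← hCdef, ← hKdef] at hxe
      set x := e (2 * t) with hxdef
      set y := e (2 * t + 1) with hydef
      have hxy : x ≠ y := by
        intro h
        exact (mem_sdiff.mp hy).2 (h ▸ mem_cl e (by omega : 2 * t < 2 * t + 1))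
      have hU : (X \ cl e (2 * t)).Nonempty := ⟨x, hx⟩
      have hyU : y ∈ X \ cl e (2 * t) := by
        rw [mem_sdiff] at hy ⊢
        exact ⟨hy.1, fun h => hy.2 (cl_mono e (by omega) h)⟩
      have hxC : x ∉ C := fun h => (mem_sdiff.mp hx).2 (hC h)
      have hyC : y ∉ C := fun h => (mem_sdiff.mp hyU).2 (hC h)
      have hst : st ty e (t + 1) = upd ty (C, K) x y := rfl
      have hclx : x ∈ cl e (2 * (t + 1)) := mem_cl e (by omega)
      have hcly : y ∈ cl e (2 * (t + 1)) := mem_cl e (by omega)
      have hCsub : C ⊆ cl e (2 * (t + 1)) := hC.trans (cl_mono e (by omega))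
      have hloss : 0 ≤ 1 / (4 * lam2) := by positivity
      by_cases htx : ty x
      · by_cases hty : ty y
        · have hupd : upd ty (C, K) x y = (insert x C, insert y K) := by
            unfold upd; rw [if_pos htx, if_pos hty]
          rw [hst, hupd]
          refine ⟨?_, ?_, ?_⟩
          · exact Finset.insert_subset hclx hCsub
          · intro k hk hcase
            rcases Nat.lt_or_ge k (2 * t) with h | h
            · exact mem_insert_of_mem (hK k h hcase)
            · rcases (by omega : k = 2 * t ∨ k = 2 * t + 1) with rfl | rfl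
              · exfalso
                rcases hcase with h1 | h1
                · exact h1.2 (even_two_mul t)
                · exact h1.1 htx
              · exact mem_insert_self _ _
          · have h1 := pot_round (coef c) (sets A) (K := K) (b := y) hxC
            have h2 := D2_le A c hc C K lam2 hl2 x y (hcl2 x y hxy)
            have h3 : D1 (coef c) (sets A) C K y ≤ D1 (coef c) (sets A) C K x := by
              have h4 := pick_max ty (D1 (coef c) (sets A) C K) (X \ cl e (2 * t)) dflt hU
                (by rw [← hxe]; exact htx) y hyU hty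
              rwa [← hxe] at h4
            push_cast
            rw [h1]
            linarith
        · have hupd : upd ty (C, K) x y = (C, K) := by
            unfold upd; rw [if_pos htx, if_neg hty]
          rw [hst, hupd]
          refine ⟨hCsub, ?_, ?_⟩
          · intro k hk hcase
            rcases Nat.lt_or_ge k (2 * t) with h | h
            · exact hK k h hcase
            · exfalso
              rcases (by omega : k = 2 * t ∨ k = 2 * t + 1) with rfl | rfl
              · rcases hcase with h1 | h1
                · exact h1.2 (even_two_mul t)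
                · exact h1.1 htx
              · rcases hcase with h1 | h1
                · exact hty h1.1
                · exact (by simp : ¬ Even (2 * t + 1)) h1.2
          · push_cast
            linarith
      · have hty : ¬ ty y := by
          exact pick_none ty (D1 (coef c) (sets A) C K) (X \ cl e (2 * t)) dflt
            (by rw [← hxe]; exact htx) y hyU
        have hupd : upd ty (C, K) x y = (insert y C, insert x K) := by
          unfold upd; rw [if_neg htx]
        rw [hst, hupd]
        refine ⟨?_, ?_, ?_⟩
        · exact Finset.insert_subset hcly hCsub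
        · intro k hk hcase
          rcases Nat.lt_or_ge k (2 * t) with h | h
          · exact mem_insert_of_mem (hK k h hcase)
          · rcases (by omega : k = 2 * t ∨ k = 2 * t + 1) with rfl | rfl
            · exact mem_insert_self _ _
            · exfalso
              rcases hcase with h1 | h1
              · exact hty h1.1
              · exact (by simp : ¬ Even (2 * t + 1)) h1.2
        · have h1 := pot_round (coef c) (sets A) (K := K) (b := x) hyC
          have h2 := D2_le A c hc C K lam2 hl2 y x (hcl2 y x (Ne.symm hxy))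
          have h3 : D1 (coef c) (sets A) C K x ≤ D1 (coef c) (sets A) C K y := by
            have h4 := pick_min ty (D1 (coef c) (sets A) C K) (X \ cl e (2 * t)) dflt hU
              (by rw [← hxe]; exact htx) y hyU
            rwa [← hxe] at h4
          push_cast
          rw [h1]
          linarith
  -- the end of the play
  set t := X.card / 2 with htdef
  obtain ⟨hC, hK, hL⟩ := hinv t (by omega)
  have htR : (t : ℝ) * (1 / (4 * lam2)) ≤ ((X.card : ℝ) / 2) * (1 / (4 * lam2)) := by
    apply mul_le_mul_of_nonneg_right _ (by positivity)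
    rw [le_div_iff₀ (by norm_num)]
    have : t * 2 ≤ X.card := by omega
    exact_mod_cast this
  have hl1' : 0 < 1 / (4 * lam1) := by positivity
  have hfin : ∀ z ∈ X, ∃ k < X.card, e k = z := by
    intro z hz
    rw [← hall] at hz
    obtain ⟨k, hk, rfl⟩ := mem_image.mp hz
    exact ⟨k, mem_range.mp hk, rfl⟩
  rcases Nat.even_or_odd X.card with hev | hodd
  · have h2t : X.card = 2 * t := by
      obtain ⟨r, hr⟩ := hev; omega
    have hp : 0 < pot (coef c) (sets A) (st ty e t).1 (st ty e t).2 := by linarith
    obtain ⟨a, ha⟩ := exists_alive A c hc _ _ hp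
    refine ⟨a, fun z hz => ?_⟩
    obtain ⟨k, hk, rfl⟩ := hfin z (hA a hz)
    refine ⟨k, hk, rfl, ?_⟩
    have hnot : e k ∉ (st ty e t).2 := fun h => Finset.disjoint_left.mp ha hz h
    have h4 : ¬ ((ty (e k) ∧ ¬ Even k) ∨ (¬ ty (e k) ∧ Even k)) :=
      fun h => hnot (hK k (by omega) h)
    tauto
  · have h2t : X.card = 2 * t + 1 := by
      obtain ⟨r, hr⟩ := hodd; omega
    by_cases htx : ty (e (2 * t))
    · have hp : 0 < pot (coef c) (sets A) (st ty e t).1 (st ty e t).2 := by linarith
      obtain ⟨a, ha⟩ := exists_alive A c hc _ _ hp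
      refine ⟨a, fun z hz => ?_⟩
      obtain ⟨k, hk, rfl⟩ := hfin z (hA a hz)
      refine ⟨k, hk, rfl, ?_⟩
      rcases Nat.lt_or_ge k (2 * t) with h | h
      · have hnot : e k ∉ (st ty e t).2 := fun h => Finset.disjoint_left.mp ha hz h
        have h4 : ¬ ((ty (e k) ∧ ¬ Even k) ∨ (¬ ty (e k) ∧ Even k)) :=
          fun h' => hnot (hK k h h')
        tauto
      · have hk2 : k = 2 * t := by omega
        subst hk2
        simp [htx]
    · have hD := D1_le A c hc (st ty e t).1 (st ty e t).2 lam1 hl1 (e (2 * t))
        (fun a b => hcl1 (e (2 * t)) a b)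
      have hp : 0 < pot (coef c) (sets A) (st ty e t).1 (insert (e (2 * t)) (st ty e t).2) := by
        rw [pot_bad]
        linarith
      obtain ⟨a, ha⟩ := exists_alive A c hc _ _ hp
      refine ⟨a, fun z hz => ?_⟩
      obtain ⟨k, hk, rfl⟩ := hfin z (hA a hz)
      refine ⟨k, hk, rfl, ?_⟩
      have hnot : e k ∉ insert (e (2 * t)) (st ty e t).2 :=
        fun h => Finset.disjoint_left.mp ha hz h
      rcases Nat.lt_or_ge k (2 * t) with h | h
      · have hnot' : e k ∉ (st ty e t).2 := fun h' => hnot (mem_insert_of_mem h')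
        have h4 : ¬ ((ty (e k) ∧ ¬ Even k) ∨ (¬ ty (e k) ∧ Even k)) :=
          fun h' => hnot' (hK k h h')
        tauto
      · exfalso
        have hk2 : k = 2 * t := by omega
        subst hk2
        exact hnot (mem_insert_self _ _)

end Pool.Agent.H53.CG
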