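import Mathlib

set_option autoImplicit false

namespace Pool.Agent.H53.CG

open Finset

variable {E : Type*} [DecidableEq E] {ι : Type*} [Fintype ι]

/-- Weight of a set `B` when `C` are the elements already secured and `K` the elements that kill. -/
noncomputable def wt (C K B : Finset E) : ℝ :=
  if Disjoint B K then (1/2 : ℝ)^((B \ C).card) else 0

noncomputable def pot (c : ι → ℝ) (B : ι → Finset E) (C K : Finset E) : ℝ :=
  ∑ i, c i * wt C K (B i)

noncomputable def D1 (c : ι → ℝ) (B : ι → Finset E) (C K : Finset E) (z : E) : ℝ :=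
  ∑ i, if z ∈ B i then c i * wt C K (B i) else 0

noncomputable def D2 (c : ι → ℝ) (B : ι → Finset E) (C K : Finset E) (x y : E) : ℝ :=
  ∑ i, if x ∈ B i ∧ y ∈ B i then c i * wt C K (B i) else 0

lemma wt_nonneg (C K B : Finset E) : 0 ≤ wt C K B := by
  unfold wt; split_ifs <;> positivity

lemma wt_good_mem {C K B : Finset E} {g : E} (hgC : g ∉ C) (hg : g ∈ B) :
    wt (insert g C) K B = 2 * wt C K B := by
  unfold wt
  split_ifs
  · have h1 : (B \ C) = insert g (B \ insert g C) := by
      ext x
      simp only [mem_sdiff, mem_insert]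
      by_cases hx : x = g
      · subst hx; simp [hg, hgC]
      · simp [hx]
    have h2 : g ∉ B \ insert g C := by simp
    rw [h1, card_insert_of_notMem h2, pow_succ]
    ring
  · ring

lemma wt_good_notMem {C K B : Finset E} {g : E} (hg : g ∉ B) :
    wt (insert g C) K B = wt C K B := by
  unfold wt
  have h1 : B \ insert g C = B \ C := by
    ext x
    simp only [mem_sdiff, mem_insert]
    by_cases hx : x = g
    · subst hx; simp [hg]
    · simp [hx]
  rw [h1]

lemma wt_bad_mem {C K B : Finset E} {b : E} (hb : b ∈ B) :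
    wt C (insert b K) B = 0 := by
  unfold wt
  rw [if_neg]
  intro h
  exact (Finset.disjoint_left.mp h hb) (mem_insert_self _ _)

lemma wt_bad_notMem {C K B : Finset E} {b : E} (hb : b ∉ B) :
    wt C (insert b K) B = wt C K B := by
  unfold wt
  have : Disjoint B (insert b K) ↔ Disjoint B K := by
    rw [Finset.disjoint_insert_right]
    simp [hb]
  simp only [this]

lemma pot_good (c : ι → ℝ) (B : ι → Finset E) {C K : Finset E} {g : E} (hgC : g ∉ C) :
    pot c B (insert g C) K = pot c B C K + D1 c B C K g := by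
  unfold pot D1
  rw [← Finset.sum_add_distrib]
  refine Finset.sum_congr rfl fun i _ => ?_
  by_cases h : g ∈ B i
  · rw [wt_good_mem hgC h, if_pos h]; ring
  · rw [wt_good_notMem h, if_neg h]; ring

lemma pot_bad (c : ι → ℝ) (B : ι → Finset E) {C K : Finset E} {b : E} :
    pot c B C (insert b K) = pot c B C K - D1 c B C K b := by
  unfold pot D1
  rw [← Finset.sum_sub_distrib]
  refine Finset.sum_congr rfl fun i _ => ?_
  by_cases h : b ∈ B i
  · rw [wt_bad_mem h, if_pos h]; ring
  · rw [wt_bad_notMem h, if_neg h]; ring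

lemma D1_good (c : ι → ℝ) (B : ι → Finset E) {C K : Finset E} {g b : E} (hgC : g ∉ C) :
    D1 c B (insert g C) K b = D1 c B C K b + D2 c B C K g b := by
  unfold D1 D2
  rw [← Finset.sum_add_distrib]
  refine Finset.sum_congr rfl fun i _ => ?_
  by_cases h : g ∈ B i
  · rw [wt_good_mem hgC h]
    by_cases hb : b ∈ B i
    · simp only [h, hb, and_self, if_true]; ring
    · simp [h, hb]
  · rw [wt_good_notMem h]
    simp [h]

lemma pot_round (c : ι → ℝ) (B : ι → Finset E) {C K : Finset E} {g b : E} (hgC : g ∉ C) :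
    pot c B (insert g C) (insert b K)
      = pot c B C K + D1 c B C K g - D1 c B C K b - D2 c B C K g b := by
  rw [pot_bad, pot_good c B hgC, D1_good c B hgC]
  ring

lemma wt_mul_le (C K A A' : Finset E) : wt C K A * wt C K A' ≤ wt C K (A ∪ A') := by
  unfold wt
  by_cases h1 : Disjoint A K
  · by_cases h2 : Disjoint A' K
    · have h3 : Disjoint (A ∪ A') K := Finset.disjoint_union_left.mpr ⟨h1, h2⟩
      rw [if_pos h1, if_pos h2, if_pos h3, ← pow_add]
      apply pow_le_pow_of_le_one (by norm_num) (by norm_num)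
      rw [Finset.union_sdiff_distrib]
      exact Finset.card_union_le _ _
    · rw [if_neg h2, mul_zero]
      split_ifs <;> positivity
  · rw [if_neg h1, zero_mul]
    split_ifs <;> positivity

/-! ### The two-level potential -/

variable {I : Type*} [Fintype I]

/-- coefficients of the two-level potential -/
def coef (c : I → I → ℝ) : I ⊕ (I × I) → ℝ := Sum.elim (fun _ => 1) (fun p => - c p.1 p.2)

def sets (A : I → Finset E) : I ⊕ (I × I) → Finset E := Sum.elim A (fun p => A p.1 ∪ A p.2)

lemma quad_le (W lam : ℝ) (h : 0 < lam) : W - lam * W ^ 2 ≤ 1 / (4 * lam) := by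
  rw [le_div_iff₀ (by positivity)]
  nlinarith [sq_nonneg (2 * lam * W - 1)]

lemma key_bound (A : I → Finset E) (c : I → I → ℝ) (hc : ∀ a b, 0 ≤ c a b) (C K : Finset E)
    (P : Finset E → Prop) [DecidablePred P] (hP : ∀ a b, P (A a) → P (A b) → P (A a ∪ A b))
    (lam : ℝ) (hlam : 0 < lam) (hcl : ∀ a b, P (A a) → P (A b) → lam ≤ c a b) :
    (∑ i, if P (sets A i) then coef c i * wt C K (sets A i) else 0) ≤ 1 / (4 * lam) := by
  rw [Fintype.sum_sum_type]
  simp only [sets, coef, Sum.elim_inl, Sum.elim_inr, one_mul]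
  set W : ℝ := ∑ a, if P (A a) then wt C K (A a) else 0 with hW
  have h1 : W ^ 2 = ∑ p : I × I, (if P (A p.1) then wt C K (A p.1) else 0) *
      (if P (A p.2) then wt C K (A p.2) else 0) := by
    rw [sq, hW, Finset.sum_mul_sum, ← Finset.univ_product_univ, Finset.sum_product]
  have h2 : (∑ p : I × I, if P (A p.1 ∪ A p.2) then -c p.1 p.2 * wt C K (A p.1 ∪ A p.2) else 0)
      ≤ - (lam * W ^ 2) := by
    rw [h1, Finset.mul_sum, ← Finset.sum_neg_distrib]
    refine Finset.sum_le_sum fun p _ => ?_
    have hw : 0 ≤ wt C K (A p.1 ∪ A p.2) := wt_nonneg _ _ _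
    by_cases ha : P (A p.1)
    · by_cases hb : P (A p.2)
      · rw [if_pos (hP _ _ ha hb), if_pos ha, if_pos hb]
        have h3 := wt_mul_le C K (A p.1) (A p.2)
        have h4 := hcl _ _ ha hb
        have h5 : lam * (wt C K (A p.1) * wt C K (A p.2)) ≤ c p.1 p.2 * wt C K (A p.1 ∪ A p.2) :=
          mul_le_mul h4 h3 (mul_nonneg (wt_nonneg _ _ _) (wt_nonneg _ _ _)) (hc _ _)
        linarith
      · rw [if_neg hb, mul_zero, mul_zero, neg_zero]
        split_ifs
        · have := mul_nonneg (hc p.1 p.2) hw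
          linarith
        · exact le_refl _
    · rw [if_neg ha, zero_mul, mul_zero, neg_zero]
      split_ifs
      · have := mul_nonneg (hc p.1 p.2) hw
        linarith
      · exact le_refl _
  have h3 := quad_le W lam hlam
  refine le_trans (add_le_add (le_refl W) h2) ?_
  linarith

lemma D1_le (A : I → Finset E) (c : I → I → ℝ) (hc : ∀ a b, 0 ≤ c a b) (C K : Finset E)
    (lam : ℝ) (hlam : 0 < lam) (z : E) (hcl : ∀ a b, z ∈ A a → z ∈ A b → lam ≤ c a b) :
    D1 (coef c) (sets A) C K z ≤ 1 / (4 * lam) := by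
  unfold D1
  exact key_bound A c hc C K (fun B => z ∈ B) (fun a b ha _ => mem_union_left _ ha) lam hlam hcl

lemma D2_le (A : I → Finset E) (c : I → I → ℝ) (hc : ∀ a b, 0 ≤ c a b) (C K : Finset E)
    (lam : ℝ) (hlam : 0 < lam) (x y : E)
    (hcl : ∀ a b, (x ∈ A a ∧ y ∈ A a) → (x ∈ A b ∧ y ∈ A b) → lam ≤ c a b) :
    D2 (coef c) (sets A) C K x y ≤ 1 / (4 * lam) := by
  unfold D2
  exact key_bound A c hc C K (fun B => x ∈ B ∧ y ∈ B)
    (fun a b ha _ => ⟨mem_union_left _ ha.1, mem_union_left _ ha.2⟩) lam hlam hcl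

/-- If the potential is positive, some set is disjoint from the killing set. -/
lemma exists_alive (A : I → Finset E) (c : I → I → ℝ) (hc : ∀ a b, 0 ≤ c a b) (C K : Finset E)
    (h : 0 < pot (coef c) (sets A) C K) : ∃ a, Disjoint (A a) K := by
  by_contra hcon
  push Not at hcon
  have : pot (coef c) (sets A) C K ≤ 0 := by
    unfold pot
    rw [Fintype.sum_sum_type]
    have h1 : (∑ a : I, coef c (Sum.inl a) * wt C K (sets A (Sum.inl a))) = 0 := by
      refine Finset.sum_eq_zero fun a _ => ?_
      simp only [coef, sets, Sum.elim_inl, one_mul]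
      unfold wt
      rw [if_neg (hcon a)]
    have h2 : (∑ p : I × I, coef c (Sum.inr p) * wt C K (sets A (Sum.inr p))) ≤ 0 := by
      refine Finset.sum_nonpos fun p _ => ?_
      simp only [coef, sets, Sum.elim_inr]
      have := mul_nonneg (hc p.1 p.2) (wt_nonneg C K (A p.1 ∪ A p.2))
      linarith
    linarith
  linarith

end Pool.Agent.H53.CG
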