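import Mathlib

/-! Abstract orientation predicates and stretched orders: basic lemmas. -/

namespace Pool.Agent.H53.Str

set_option linter.unusedSectionVars false

variable {α : Type*} [DecidableEq α]

/-- An abstract orientation predicate: `O a b c` means that `a, b, c` is counterclockwise. -/
structure Ax (O : α → α → α → Prop) : Prop where
  rot : ∀ a b c, O a b c → O b c a
  asym : ∀ a b c, O a b c → ¬ O a c b
  tot : ∀ a b c, a ≠ b → b ≠ c → a ≠ c → O a b c ∨ O a c b

/-- `p` is not inside a triangle of `Y`. -/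
def Hull (O : α → α → α → Prop) (Y : Finset α) (p : α) : Prop :=
  ∀ a ∈ Y, ∀ b ∈ Y, ∀ c ∈ Y, O p a b → O p b c → ¬ O p c a

/-- `x` and `x'`, both before `b` and `c`, see the pair `b, c` the same way. -/
def StrO (O : α → α → α → Prop) (Y : Finset α) (r : α → ℕ) : Prop :=
  ∀ x ∈ Y, ∀ x' ∈ Y, ∀ b ∈ Y, ∀ c ∈ Y, r x < r b → r x' < r b → r b < r c →
    (O x b c → O x' b c)

/-- A stretched order of `Y` with first element `w`. -/
structure Ord (O : α → α → α → Prop) (Y : Finset α) (w : α) (q : α → ℕ) : Prop where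
  mem : w ∈ Y
  hull : Hull O Y w
  inj : ∀ a ∈ Y, ∀ b ∈ Y, q a = q b → a = b
  first : ∀ y ∈ Y, y ≠ w → q w < q y
  str : StrO O Y q

/-- `Y` has a stretched order with first element `w`. -/
def Good (O : α → α → α → Prop) (Y : Finset α) (w : α) : Prop :=
  ∃ q : α → ℕ, Ord O Y w q

/-- `w` and `q` see every other pair of `Y` the same way. -/
def Partner (O : α → α → α → Prop) (Y : Finset α) (w q : α) : Prop :=
  ∀ a ∈ Y, ∀ b ∈ Y, a ≠ w → a ≠ q → b ≠ w → b ≠ q → (O w a b ↔ O q a b)

variable {O : α → α → α → Prop}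

section basic

lemma Ax.rot_iff (h : Ax O) (a b c : α) : O a b c ↔ O b c a :=
  ⟨h.rot a b c, fun h1 => h.rot _ _ _ (h.rot _ _ _ h1)⟩

lemma Ax.ne23 (h : Ax O) {a b c : α} (h1 : O a b c) : b ≠ c := by
  rintro rfl
  exact h.asym _ _ _ h1 h1

lemma Ax.ne13 (h : Ax O) {a b c : α} (h1 : O a b c) : a ≠ c := by
  have := h.ne23 (h.rot _ _ _ h1)
  exact this.symm

lemma Ax.ne12 (h : Ax O) {a b c : α} (h1 : O a b c) : a ≠ b := by
  have := h.ne23 (h.rot _ _ _ (h.rot _ _ _ h1))
  exact this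

lemma Ax.not_iff (h : Ax O) {a b c : α} (hab : a ≠ b) (hbc : b ≠ c) (hac : a ≠ c) :
    ¬ O a b c ↔ O a c b := by
  constructor
  · intro h1
    rcases h.tot a b c hab hbc hac with h2 | h2
    · exact absurd h2 h1
    · exact h2
  · intro h1 h2
    exact h.asym _ _ _ h2 h1

lemma Hull.mono {Y Z : Finset α} {p : α} (h : Hull O Y p) (hZ : Z ⊆ Y) : Hull O Z p :=
  fun a ha b hb c hc => h a (hZ ha) b (hZ hb) c (hZ hc)

lemma Partner.mono {Y Z : Finset α} {p q : α} (h : Partner O Y p q) (hZ : Z ⊆ Y) :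
    Partner O Z p q :=
  fun a ha b hb => h a (hZ ha) b (hZ hb)

lemma Partner.symm {Y : Finset α} {p q : α} (h : Partner O Y p q) : Partner O Y q p :=
  fun a ha b hb h1 h2 h3 h4 => (h a ha b hb h2 h1 h4 h3).symm

lemma Ord.mono {Y Z : Finset α} {w : α} {q : α → ℕ} (h : Ord O Y w q) (hZ : Z ⊆ Y)
    (hw : w ∈ Z) : Ord O Z w q where
  mem := hw
  hull := h.hull.mono hZ
  inj := fun a ha b hb => h.inj a (hZ ha) b (hZ hb)
  first := fun y hy => h.first y (hZ hy)
  str := fun x hx x' hx' b hb c hc => h.str x (hZ hx) x' (hZ hx') b (hZ hb) c (hZ hc)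

lemma Good.mono {Y Z : Finset α} {w : α} (h : Good O Y w) (hZ : Z ⊆ Y)
    (hw : w ∈ Z) : Good O Z w := by
  obtain ⟨q, hq⟩ := h
  exact ⟨q, hq.mono hZ hw⟩

lemma Good.mem {Y : Finset α} {w : α} (h : Good O Y w) : w ∈ Y := by
  obtain ⟨q, hq⟩ := h
  exact hq.mem

lemma Good.hull {Y : Finset α} {w : α} (h : Good O Y w) : Hull O Y w := by
  obtain ⟨q, hq⟩ := h
  exact hq.hull

/-- Symmetric form of the stretched condition. -/
lemma StrO.sym (h : Ax O) {Y : Finset α} {r : α → ℕ} (hs : StrO O Y r)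
    (hinj : ∀ a ∈ Y, ∀ b ∈ Y, r a = r b → a = b) {x x' b c : α}
    (hx : x ∈ Y) (hx' : x' ∈ Y) (hb : b ∈ Y) (hc : c ∈ Y)
    (h1 : r x < r b) (h2 : r x < r c) (h3 : r x' < r b) (h4 : r x' < r c) :
    (O x b c ↔ O x' b c) := by
  rcases lt_trichotomy (r b) (r c) with hbc | hbc | hbc
  · exact ⟨hs x hx x' hx' b hb c hc h1 h3 hbc, hs x' hx' x hx b hb c hc h3 h1 hbc⟩
  · have := hinj b hb c hc hbc
    subst this
    exact ⟨fun h5 => absurd rfl (h.ne23 h5), fun h5 => absurd rfl (h.ne23 h5)⟩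
  · have key : O x c b ↔ O x' c b :=
      ⟨hs x hx x' hx' c hc b hb h2 h4 hbc, hs x' hx' x hx c hc b hb h4 h2 hbc⟩
    have e1 : x ≠ c := by rintro rfl; omega
    have e2 : x ≠ b := by rintro rfl; omega
    have e3 : x' ≠ c := by rintro rfl; omega
    have e4 : x' ≠ b := by rintro rfl; omega
    have e5 : b ≠ c := by rintro rfl; omega
    rw [← h.not_iff e1 e5.symm e2, ← h.not_iff e3 e5.symm e4, key]

lemma Ord.st (h : Ax O) {Y : Finset α} {w : α} {r : α → ℕ} (hs : Ord O Y w r) {x x' b c : α}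
    (hx : x ∈ Y) (hx' : x' ∈ Y) (hb : b ∈ Y) (hc : c ∈ Y)
    (h1 : r x < r b) (h2 : r x < r c) (h3 : r x' < r b) (h4 : r x' < r c) :
    (O x b c ↔ O x' b c) :=
  hs.str.sym h hs.inj hx hx' hb hc h1 h2 h3 h4

/-- the second element of a stretched order -/
lemma Good.second (h : Ax O) {Y : Finset α} {w : α} (hg : Good O Y w)
    (hY : ∃ y ∈ Y, y ≠ w) :
    ∃ q ∈ Y, q ≠ w ∧ Partner O Y w q ∧ Good O (Y.erase w) q := by
  obtain ⟨r, hr⟩ := hg
  obtain ⟨y, hy, hyw⟩ := hY
  have hne : (Y.erase w).Nonempty := ⟨y, Finset.mem_erase.2 ⟨hyw, hy⟩⟩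
  obtain ⟨q, hq, hmin⟩ := Finset.exists_min_image (Y.erase w) r hne
  have hqY : q ∈ Y := Finset.mem_of_mem_erase hq
  have hqw : q ≠ w := Finset.ne_of_mem_erase hq
  have hlt : ∀ z ∈ Y, z ≠ w → z ≠ q → r q < r z := by
    intro z hz hzw hzq
    have h1 := hmin z (Finset.mem_erase.2 ⟨hzw, hz⟩)
    rcases h1.lt_or_eq with h2 | h2
    · exact h2
    · exact absurd (hr.inj q hqY z hz h2).symm hzq
  have hP : Partner O Y w q := by
    intro a ha b hb h1 h2 h3 h4
    exact hr.st h hr.mem hqY ha hb (hr.first a ha h1) (hr.first b hb h3) (hlt a ha h1 h2)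
      (hlt b hb h3 h4)
  refine ⟨q, hqY, hqw, hP, r, ?_⟩
  refine ⟨hq, ?_, ?_, ?_, ?_⟩
  · intro a ha b hb c hc h1 h2 h3
    have ha' := Finset.mem_erase.1 ha
    have hb' := Finset.mem_erase.1 hb
    have hc' := Finset.mem_erase.1 hc
    have e1 := h.ne12 h1
    have e2 := h.ne12 h2
    have e3 := h.ne12 h3
    exact hr.hull a ha'.2 b hb'.2 c hc'.2
      ((hP a ha'.2 b hb'.2 ha'.1 e1.symm hb'.1 e2.symm).2 h1)
      ((hP b hb'.2 c hc'.2 hb'.1 e2.symm hc'.1 e3.symm).2 h2)
      ((hP c hc'.2 a ha'.2 hc'.1 e3.symm ha'.1 e1.symm).2 h3)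
  · intro a ha b hb
    exact hr.inj a (Finset.mem_of_mem_erase ha) b (Finset.mem_of_mem_erase hb)
  · intro z hz hzq
    have hz' := Finset.mem_erase.1 hz
    exact hlt z hz'.2 hz'.1 hzq
  · intro x hx x' hx' b hb c hc
    exact hr.str x (Finset.mem_of_mem_erase hx) x' (Finset.mem_of_mem_erase hx')
      b (Finset.mem_of_mem_erase hb) c (Finset.mem_of_mem_erase hc)

/-- put `w` in front -/
lemma frontIns (h : Ax O) {Y : Finset α} {w q : α} (hw : w ∈ Y) (hH : Hull O Y w)
    (hP : Partner O Y w q) (hg : Good O (Y.erase w) q) : Good O Y w := by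
  obtain ⟨r, hr⟩ := hg
  have hq := Finset.mem_erase.1 hr.mem
  have hqf : ∀ z ∈ Y, z ≠ w → z ≠ q → r q < r z := by
    intro z hz h1 h2
    exact hr.first z (Finset.mem_erase.2 ⟨h1, hz⟩) h2
  refine ⟨fun y => if y = w then 0 else r y + 1, hw, hH, ?_, ?_, ?_⟩
  · intro a ha b hb hab
    by_cases h1 : a = w <;> by_cases h2 : b = w
    · rw [h1, h2]
    · simp [h1, h2] at hab
    · simp [h1, h2] at hab
    · simp only [h1, h2, if_false] at hab
      exact hr.inj a (Finset.mem_erase.2 ⟨h1, ha⟩) b (Finset.mem_erase.2 ⟨h2, hb⟩) (by omega)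
  · intro y _ hy
    simp [hy]
  · intro x hx x' hx' b hb c hc h1 h2 h3 h4
    by_cases hbw : b = w
    · simp [hbw] at h1
    by_cases hcw : c = w
    · simp [hcw] at h3
    simp only [hbw, hcw, if_false] at h1 h2 h3
    by_cases hxw : x = w <;> by_cases hxw' : x' = w
    · rw [hxw']; rw [hxw] at h4; exact h4
    · simp only [hxw', if_false] at h2
      subst hxw
      have h2' : r x' < r b := by omega
      have h5 : r q ≤ r x' := by
        by_cases e : x' = q
        · rw [e]
        · exact (hqf x' hx' hxw' e).le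
      have hbq : b ≠ q := by rintro rfl; omega
      have hcq : c ≠ q := by rintro rfl; omega
      have h6 : O q b c := (hP b hb c hc hbw hbq hcw hcq).1 h4
      exact hr.str q hr.mem x' (Finset.mem_erase.2 ⟨hxw', hx'⟩) b (Finset.mem_erase.2 ⟨hbw, hb⟩)
        c (Finset.mem_erase.2 ⟨hcw, hc⟩) (by omega) h2' (by omega) h6
    · simp only [hxw, if_false] at h1
      subst hxw'
      have h1' : r x < r b := by omega
      have h5 : r q ≤ r x := by
        by_cases e : x = q
        · rw [e]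
        · exact (hqf x hx hxw e).le
      have hbq : b ≠ q := by rintro rfl; omega
      have hcq : c ≠ q := by rintro rfl; omega
      have h6 : O q b c := hr.str x (Finset.mem_erase.2 ⟨hxw, hx⟩) q hr.mem b
        (Finset.mem_erase.2 ⟨hbw, hb⟩)
        c (Finset.mem_erase.2 ⟨hcw, hc⟩) h1' (by omega) (by omega) h4
      exact (hP b hb c hc hbw hbq hcw hcq).2 h6
    · simp only [hxw, hxw', if_false] at h1 h2
      exact hr.str x (Finset.mem_erase.2 ⟨hxw, hx⟩) x' (Finset.mem_erase.2 ⟨hxw', hx'⟩) b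
        (Finset.mem_erase.2 ⟨hbw, hb⟩)
        c (Finset.mem_erase.2 ⟨hcw, hc⟩) (by omega) (by omega) (by omega) h4

/-- replace `w` by its partner `q` -/
lemma swapFirst (h : Ax O) {Y : Finset α} {w q : α} (hqY : q ∈ Y) (hwq : w ≠ q)
    (hP : Partner O Y w q) (hg : Good O (Y.erase q) w) : Good O (Y.erase w) q := by
  obtain ⟨r, hr⟩ := hg
  have hwY : w ∈ Y := Finset.mem_of_mem_erase hr.mem
  have hwf : ∀ z ∈ Y, z ≠ w → z ≠ q → r w < r z := by
    intro z hz h1 h2
    exact hr.first z (Finset.mem_erase.2 ⟨h2, hz⟩) h1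
  refine ⟨fun y => if y = q then r w else r y, Finset.mem_erase.2 ⟨hwq.symm, hqY⟩, ?_, ?_, ?_, ?_⟩
  · intro a ha b hb c hc h1 h2 h3
    have ha' := Finset.mem_erase.1 ha
    have hb' := Finset.mem_erase.1 hb
    have hc' := Finset.mem_erase.1 hc
    have e1 := h.ne12 h1
    have e2 := h.ne12 h2
    have e3 := h.ne12 h3
    exact hr.hull a (Finset.mem_erase.2 ⟨e1.symm, ha'.2⟩) b (Finset.mem_erase.2 ⟨e2.symm, hb'.2⟩)
      c (Finset.mem_erase.2 ⟨e3.symm, hc'.2⟩)
      ((hP a ha'.2 b hb'.2 ha'.1 e1.symm hb'.1 e2.symm).2 h1)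
      ((hP b hb'.2 c hc'.2 hb'.1 e2.symm hc'.1 e3.symm).2 h2)
      ((hP c hc'.2 a ha'.2 hc'.1 e3.symm ha'.1 e1.symm).2 h3)
  · intro a ha b hb hab
    have ha' := Finset.mem_erase.1 ha
    have hb' := Finset.mem_erase.1 hb
    by_cases h1 : a = q <;> by_cases h2 : b = q
    · rw [h1, h2]
    · simp only [h1, h2, if_true, if_false] at hab
      have := hwf b hb'.2 hb'.1 h2
      omega
    · simp only [h1, h2, if_true, if_false] at hab
      have := hwf a ha'.2 ha'.1 h1
      omega
    · simp only [h1, h2, if_false] at hab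
      exact hr.inj a (Finset.mem_erase.2 ⟨h1, ha'.2⟩) b (Finset.mem_erase.2 ⟨h2, hb'.2⟩) hab
  · intro y hy hyq
    have hy' := Finset.mem_erase.1 hy
    simp only [hyq, if_true, if_false]
    exact hwf y hy'.2 hy'.1 hyq
  · intro x hx x' hx' b hb c hc h1 h2 h3 h4
    have hx2 := Finset.mem_erase.1 hx
    have hx2' := Finset.mem_erase.1 hx'
    have hb' := Finset.mem_erase.1 hb
    have hc' := Finset.mem_erase.1 hc
    have hge : ∀ y ∈ Y, y ≠ w → r w ≤ (if y = q then r w else r y) := by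
      intro y hy hyw
      by_cases e : y = q
      · simp [e]
      · simp only [e, if_false]; exact (hwf y hy hyw e).le
    have hgx := hge x hx2.2 hx2.1
    have hbq : b ≠ q := by
      intro e
      simp only [e, if_true] at h1
      omega
    have hcq : c ≠ q := by
      intro e
      simp only [e, if_true] at h3
      simp only [hbq, if_false] at h1 h3
      omega
    simp only [hbq, hcq, if_false] at h1 h2 h3
    have hbc := (hP b hb'.2 c hc'.2 hb'.1 hbq hc'.1 hcq)
    have hbm : b ∈ Y.erase q := Finset.mem_erase.2 ⟨hbq, hb'.2⟩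
    have hcm : c ∈ Y.erase q := Finset.mem_erase.2 ⟨hcq, hc'.2⟩
    by_cases hxq : x = q <;> by_cases hxq' : x' = q
    · rw [hxq']; rw [hxq] at h4; exact h4
    · simp only [hxq', if_false] at h2
      subst hxq
      simp only [if_true] at h1
      exact hr.str w hr.mem x' (Finset.mem_erase.2 ⟨hxq', hx2'.2⟩) b hbm c hcm h1 h2 h3
        (hbc.2 h4)
    · simp only [hxq, if_false] at h1
      subst hxq'
      simp only [if_true] at h2
      exact hbc.1 (hr.str x (Finset.mem_erase.2 ⟨hxq, hx2.2⟩) w hr.mem b hbm c hcm h1 h2 h3 h4)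
    · simp only [hxq, hxq', if_false] at h1 h2
      exact hr.str x (Finset.mem_erase.2 ⟨hxq, hx2.2⟩) x' (Finset.mem_erase.2 ⟨hxq', hx2'.2⟩) b hbm
        c hcm h1 h2 h3 h4

lemma ins2 (h : Ax O) {Y : Finset α} {w q : α} (hqY : q ∈ Y) (hwq : w ≠ q) (hH : Hull O Y w)
    (hP : Partner O Y w q) (hg : Good O (Y.erase q) w) : Good O Y w :=
  frontIns h (Finset.mem_of_mem_erase hg.mem) hH hP (swapFirst h hqY hwq hP hg)

lemma dropFirst (h : Ax O) {Y : Finset α} {w q : α} (hqY : q ∈ Y) (hwq : w ≠ q)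
    (hP : Partner O Y w q) (hg : Good O Y w) : Good O (Y.erase w) q :=
  swapFirst h hqY hwq hP
    (hg.mono (Finset.erase_subset _ _) (Finset.mem_erase.2 ⟨hwq, hg.mem⟩))

lemma twin (h : Ax O) {Y : Finset α} {x x' : α} (hx' : x' ∈ Y) (hxx : x ≠ x')
    (hP : Partner O Y x x') (hg : Good O Y x) (hH : Hull O Y x') : Good O Y x' :=
  frontIns h hx' hH hP.symm
    (hg.mono (Finset.erase_subset _ _) (Finset.mem_erase.2 ⟨hxx, hg.mem⟩))

end basic

/-- choose an element of a finset outside a small finset -/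
lemma exists_notMem_of_card {V B : Finset α} (h : B.card < V.card) : ∃ v ∈ V, v ∉ B := by
  by_contra hc
  push Not at hc
  exact absurd (Finset.card_le_card (show V ⊆ B from hc)) (by omega)

/-- **S1'**: goodness with at least 13 exceptions extends. -/
theorem good_of_many (h : Ax O) : ∀ (n : ℕ) (Y : Finset α) (w : α) (V : Finset α), Y.card ≤ n →
    w ∈ Y → V ⊆ Y → w ∉ V → 13 ≤ V.card → (∀ v ∈ V, Good O (Y.erase v) w) → Good O Y w := by
  intro n
  induction n with
  | zero =>
    intro Y w V hn hwY hVY hwV hV _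
    have := Finset.card_le_card hVY
    omega
  | succ n ih =>
    intro Y w V hn hwY hVY hwV hV hgood
    have hVw : ∀ v ∈ V, w ≠ v := by
      rintro v hv rfl
      exact hwV hv
    -- hull
    have hH : Hull O Y w := by
      intro a ha b hb c hc h1 h2 h3
      have hcard : ({a, b, c} : Finset α).card < V.card :=
        lt_of_le_of_lt (Finset.card_le_three) (by omega)
      obtain ⟨v, hv, hvn⟩ := exists_notMem_of_card hcard
      simp only [Finset.mem_insert, Finset.mem_singleton, not_or] at hvn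
      obtain ⟨e1, e2, e3⟩ := hvn
      exact (hgood v hv).hull a (Finset.mem_erase.2 ⟨Ne.symm e1, ha⟩)
        b (Finset.mem_erase.2 ⟨Ne.symm e2, hb⟩) c (Finset.mem_erase.2 ⟨Ne.symm e3, hc⟩) h1 h2 h3
    -- partners
    have hpart : ∀ v ∈ V, ∃ q ∈ Y.erase v, q ≠ w ∧ Partner O (Y.erase v) w q ∧
        Good O ((Y.erase v).erase w) q := by
      intro v hv
      apply (hgood v hv).second h
      have hcard : ({v, w} : Finset α).card < V.card :=
        lt_of_le_of_lt (Finset.card_le_two) (by omega)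
      obtain ⟨u, hu, hun⟩ := exists_notMem_of_card hcard
      simp only [Finset.mem_insert, Finset.mem_singleton, not_or] at hun
      exact ⟨u, Finset.mem_erase.2 ⟨hun.1, hVY hu⟩, hun.2⟩
    choose! q hqm hqw hqP _ using hpart
    by_cases hA : ∃ p, 3 ≤ (V.filter (fun v => q v = p)).card
    · obtain ⟨p, hp⟩ := hA
      have hne : ∃ v, v ∈ V.filter (fun v => q v = p) := by
        have : 0 < (V.filter (fun v => q v = p)).card := by omega
        exact Finset.card_pos.1 this
      obtain ⟨v0, hv0⟩ := hne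
      rw [Finset.mem_filter] at hv0
      have hpY : p ∈ Y := by
        rw [← hv0.2]; exact Finset.mem_of_mem_erase (hqm v0 hv0.1)
      have hpw : p ≠ w := by
        rw [← hv0.2]; exact hqw v0 hv0.1
      have hPart : Partner O Y w p := by
        intro a ha b hb h1 h2 h3 h4
        have hcard : ({a, b} : Finset α).card < (V.filter (fun v => q v = p)).card :=
          lt_of_le_of_lt (Finset.card_le_two) (by omega)
        obtain ⟨u, hu, hun⟩ := exists_notMem_of_card hcard
        simp only [Finset.mem_insert, Finset.mem_singleton, not_or] at hun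
        rw [Finset.mem_filter] at hu
        have hP := hqP u hu.1
        rw [hu.2] at hP
        exact hP a (Finset.mem_erase.2 ⟨Ne.symm hun.1, ha⟩) b
          (Finset.mem_erase.2 ⟨Ne.symm hun.2, hb⟩) h1 h2 h3 h4
      by_cases hpV : p ∈ V
      · exact ins2 h hpY hpw.symm hH hPart (hgood p hpV)
      · have key : ∀ v ∈ V, Good O ((Y.erase w).erase v) p := by
          intro v hv
          rw [Finset.erase_right_comm]
          have hpv : p ≠ v := by rintro rfl; exact hpV hv
          exact dropFirst h (Finset.mem_erase.2 ⟨hpv, hpY⟩) hpw.symm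
            (hPart.mono (Finset.erase_subset _ _)) (hgood v hv)
        have hg : Good O (Y.erase w) p := by
          apply ih (Y.erase w) p V _ (Finset.mem_erase.2 ⟨hpw, hpY⟩) _ hpV hV key
          · rw [Finset.card_erase_of_mem hwY]; omega
          · intro v hv
            exact Finset.mem_erase.2 ⟨(hVw v hv).symm, hVY hv⟩
        exact frontIns h hwY hH hPart hg
    · push Not at hA
      exfalso
      have hbad : ∀ v ∈ V, ((V.filter (fun u => q u = q v)) ∪ {q v} ∪
          (V.filter (fun u => q u = v))).card ≤ 5 := by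
        intro v _
        have h1 := Finset.card_union_le ((V.filter (fun u => q u = q v)) ∪ {q v})
          (V.filter (fun u => q u = v))
        have h2 := Finset.card_union_le (V.filter (fun u => q u = q v)) {q v}
        have h3 := hA (q v)
        have h4 := hA v
        rw [Finset.card_singleton] at h2
        omega
      have hV1 : ∃ v1, v1 ∈ V := Finset.card_pos.1 (by omega)
      obtain ⟨v1, hv1⟩ := hV1
      have hb1 := hbad v1 hv1
      obtain ⟨v2, hv2, hn2⟩ := exists_notMem_of_card (lt_of_le_of_lt hb1 (by omega : 5 < V.card))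
      have hb2 := hbad v2 hv2
      have hb3 : (((V.filter (fun u => q u = q v1)) ∪ {q v1} ∪
          (V.filter (fun u => q u = v1))) ∪ ((V.filter (fun u => q u = q v2)) ∪ {q v2} ∪
          (V.filter (fun u => q u = v2)))).card < V.card :=
        lt_of_le_of_lt (Finset.card_union_le _ _) (by omega)
      obtain ⟨v3, hv3, hn3⟩ := exists_notMem_of_card hb3
      simp only [Finset.mem_union, Finset.mem_filter, Finset.mem_singleton, not_or, not_and]
        at hn2 hn3
      obtain ⟨⟨n1, n2⟩, n3⟩ := hn2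
      obtain ⟨⟨⟨m1, m2⟩, m3⟩, ⟨⟨m4, m5⟩, m6⟩⟩ := hn3
      have n1' := n1 hv2
      have n3' := n3 hv2
      have m1' := m1 hv3
      have m3' := m3 hv3
      have m4' := m4 hv3
      have m6' := m6 hv3
      -- memberships
      have q1 := Finset.mem_erase.1 (hqm v1 hv1)
      have q2 := Finset.mem_erase.1 (hqm v2 hv2)
      have q3 := Finset.mem_erase.1 (hqm v3 hv3)
      have w1 := hqw v1 hv1
      have w2 := hqw v2 hv2
      have w3 := hqw v3 hv3
      have P1 := hqP v1 hv1 (q v2) (Finset.mem_erase.2 ⟨n3', q2.2⟩) (q v3)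
        (Finset.mem_erase.2 ⟨m3', q3.2⟩) w2 n1' w3 m1'
      have P2 := hqP v2 hv2 (q v3) (Finset.mem_erase.2 ⟨m6', q3.2⟩) (q v1)
        (Finset.mem_erase.2 ⟨Ne.symm n2, q1.2⟩) w3 m4' w1 (Ne.symm n1')
      have P3 := hqP v3 hv3 (q v1) (Finset.mem_erase.2 ⟨Ne.symm m2, q1.2⟩) (q v2)
        (Finset.mem_erase.2 ⟨Ne.symm m5, q2.2⟩) w1 (Ne.symm m1') w2 (Ne.symm m4')
      have r1 := h.rot_iff (q v1) (q v2) (q v3)
      have r2 := h.rot_iff (q v2) (q v3) (q v1)
      by_cases hO : O (q v1) (q v2) (q v3)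
      · exact hH (q v1) q1.2 (q v2) q2.2 (q v3) q3.2 (P3.2 (r2.1 (r1.1 hO))) (P1.2 hO)
          (P2.2 (r1.1 hO))
      · have t1 : O w (q v3) (q v2) := by
          rw [← h.not_iff (Ne.symm w2) (Ne.symm m4') (Ne.symm w3)]
          intro hh; exact hO (P1.1 hh)
        have t2 : O w (q v1) (q v3) := by
          rw [← h.not_iff (Ne.symm w3) m1' (Ne.symm w1)]
          intro hh; exact hO (r1.2 (P2.1 hh))
        have t3 : O w (q v2) (q v1) := by
          rw [← h.not_iff (Ne.symm w1) (Ne.symm n1') (Ne.symm w2)]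
          intro hh; exact hO (r1.2 (r2.2 (P3.1 hh)))
        exact hH (q v2) q2.2 (q v1) q1.2 (q v3) q3.2 t3 t2 t1

end Pool.Agent.H53.Str
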