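import Pool.Agent.H53.StrRight

/-! Selection and counting: obstacles are bounded. -/

namespace Pool.Agent.H53.Str

set_option linter.unusedSectionVars false

variable {α : Type*} [DecidableEq α] {O : α → α → α → Prop}
variable {U : Finset α} {p0 : α} {r : α → ℕ}

section combi

/-- independent sets in digraphs of bounded outdegree -/
lemma conflict (d : ℕ) (f : α → Finset α) : ∀ (k : ℕ) (J : Finset α),
    (∀ a ∈ J, (f a).card ≤ d) → (2 * d + 1) * k ≤ J.card →
    ∃ K ⊆ J, k ≤ K.card ∧ ∀ a ∈ K, ∀ b ∈ K, a ≠ b → b ∉ f a := by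
  classical
  intro k
  induction k with
  | zero =>
    intro J _ _
    exact ⟨∅, Finset.empty_subset _, by simp, by simp⟩
  | succ k ih =>
    intro J hf hJ
    have hJpos : 0 < J.card := by
      have : 0 < (2 * d + 1) * (k + 1) := by positivity
      omega
    -- a vertex of small indegree
    have hb : ∃ b ∈ J, (J.filter (fun a => b ∈ f a)).card ≤ d := by
      by_contra hcon
      push Not at hcon
      have h1 : ∑ b ∈ J, (J.filter (fun a => b ∈ f a)).card
          = ∑ a ∈ J, (J.filter (fun b => b ∈ f a)).card := by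
        exact Finset.sum_card_bipartiteAbove_eq_sum_card_bipartiteBelow (fun b a => b ∈ f a)
      have h2 : ∑ a ∈ J, (J.filter (fun b => b ∈ f a)).card ≤ ∑ _a ∈ J, d := by
        apply Finset.sum_le_sum
        intro a ha
        refine le_trans (Finset.card_le_card ?_) (hf a ha)
        intro b hb
        exact (Finset.mem_filter.1 hb).2
      have h3 : ∑ _b ∈ J, (d + 1) ≤ ∑ b ∈ J, (J.filter (fun a => b ∈ f a)).card := by
        apply Finset.sum_le_sum
        intro b hb
        exact hcon b hb
      rw [Finset.sum_const, smul_eq_mul] at h2 h3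
      nlinarith
    obtain ⟨b, hbJ, hbd⟩ := hb
    let R : Finset α := insert b (f b ∪ J.filter (fun a => b ∈ f a))
    have hR : R.card ≤ 2 * d + 1 := by
      have h1 := Finset.card_insert_le b (f b ∪ J.filter (fun a => b ∈ f a))
      have h2 := Finset.card_union_le (f b) (J.filter (fun a => b ∈ f a))
      have h3 := hf b hbJ
      show (insert b (f b ∪ J.filter (fun a => b ∈ f a))).card ≤ _
      omega
    have hJR : (2 * d + 1) * k ≤ (J \ R).card := by
      have h1 := Finset.le_card_sdiff R J
      have h2 : (2 * d + 1) * (k + 1) = (2 * d + 1) * k + (2 * d + 1) := by ring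
      omega
    obtain ⟨K, hK, hKc, hKi⟩ := ih (J \ R) (fun a ha => hf a (Finset.mem_sdiff.1 ha).1) hJR
    have hbK : b ∉ K := by
      intro hb
      exact (Finset.mem_sdiff.1 (hK hb)).2 (Finset.mem_insert_self _ _)
    refine ⟨insert b K, ?_, ?_, ?_⟩
    · intro a ha
      rcases Finset.mem_insert.1 ha with h1 | h1
      · rw [h1]; exact hbJ
      · exact (Finset.mem_sdiff.1 (hK h1)).1
    · rw [Finset.card_insert_of_notMem hbK]; omega
    · intro a ha c hc hac
      rcases Finset.mem_insert.1 ha with h1 | h1 <;> rcases Finset.mem_insert.1 hc with h2 | h2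
      · exact absurd (h1.trans h2.symm) hac
      · rw [h1]
        intro h3
        exact (Finset.mem_sdiff.1 (hK h2)).2
          (Finset.mem_insert_of_mem (Finset.mem_union_left _ h3))
      · rw [h2]
        intro h3
        have h4 := Finset.mem_sdiff.1 (hK h1)
        exact h4.2 (Finset.mem_insert_of_mem (Finset.mem_union_right _
          (Finset.mem_filter.2 ⟨h4.1, h3⟩)))
      · exact hKi a h1 c h2 hac

/-- increasing enumeration -/
lemma enumerate (g : α → ℕ) (x0 : α) : ∀ (n : ℕ) (K : Finset α),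
    (∀ a ∈ K, ∀ b ∈ K, g a = g b → a = b) → n ≤ K.card →
    ∃ s : ℕ → α, (∀ i < n, s i ∈ K) ∧ ∀ i < n, ∀ j < n, i < j → g (s i) < g (s j) := by
  intro n
  induction n with
  | zero =>
    intro K _ _
    exact ⟨fun _ => x0, by intro i hi; omega, by intro i hi; omega⟩
  | succ n ih =>
    intro K hinj hn
    have hne : K.Nonempty := Finset.card_pos.1 (by omega)
    obtain ⟨a, ha, hmin⟩ := Finset.exists_min_image K g hne
    obtain ⟨s, hs1, hs2⟩ := ih (K.erase a)
      (fun b hb c hc => hinj b (Finset.mem_of_mem_erase hb) c (Finset.mem_of_mem_erase hc))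
      (by rw [Finset.card_erase_of_mem ha]; omega)
    refine ⟨fun i => if i = 0 then a else s (i - 1), ?_, ?_⟩
    · intro i hi
      by_cases h0 : i = 0
      · simp only [h0, if_true]; exact ha
      · simp only [h0, if_false]
        exact Finset.mem_of_mem_erase (hs1 (i - 1) (by omega))
    · intro i hi j hj hij
      have hj0 : j ≠ 0 := by omega
      simp only [hj0, if_false]
      by_cases h0 : i = 0
      · simp only [h0, if_true]
        have h1 := Finset.mem_erase.1 (hs1 (j - 1) (by omega))
        have h2 := hmin _ h1.2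
        rcases h2.lt_or_eq with h3 | h3
        · exact h3
        · exact absurd (hinj a ha _ h1.2 h3).symm h1.1
      · simp only [h0, if_false]
        exact hs2 (i - 1) (by omega) (j - 1) (by omega) (by omega)

end combi

section flip

lemma Ax.flip (h : Ax O) : Ax (fun a b c => O a c b) where
  rot := fun _ _ _ h1 => h.rot _ _ _ (h.rot _ _ _ h1)
  asym := fun _ _ _ h1 => h.asym _ _ _ h1
  tot := fun a b c h1 h2 h3 => (h.tot a b c h1 h2 h3).symm

lemma Ord.flip (h : Ax O) {Y : Finset α} {w : α} {q : α → ℕ} (B : Ord O Y w q) :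
    Ord (fun a b c => O a c b) Y w q where
  mem := B.mem
  hull := fun a ha b hb c hc h1 h2 h3 => B.hull c hc b hb a ha h2 h1 h3
  inj := B.inj
  first := B.first
  str := fun x hx x' hx' b hb c hc h1 h2 h3 h4 =>
    (B.st h hx hx' hc hb (by omega) (by omega) (by omega) (by omega)).1 h4

lemma Good.flip (h : Ax O) {Y : Finset α} {w : α} (hg : Good O Y w) :
    Good (fun a b c => O a c b) Y w := by
  obtain ⟨q, hq⟩ := hg
  exact ⟨q, hq.flip h⟩

lemma Good.unflip (h : Ax O) {Y : Finset α} {w : α}
    (hg : Good (fun a b c => O a c b) Y w) : Good O Y w :=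
  hg.flip h.flip

end flip

/-- Selection, positive sign. `K` is a set of deleted points, with choice functions. -/
lemma positive_case (h : Ax O) (B : Ord O U p0 r) (K : Finset α) (W Z : α → α) (Q : α → α → ℕ)
    (hone : ∀ v ∈ K, One O U p0 r v (W v) (Q v))
    (hbad : ∀ v ∈ K, ¬ Good O U (W v))
    (hconf : ∀ a ∈ K, ∀ b ∈ K, a ≠ b → b ≠ W a ∧ b ≠ Z a ∧ W b ≠ W a)
    (hZ : ∀ v ∈ K, (∃ z ∈ U, z ≠ v ∧ Q v p0 < Q v z ∧ r (W v) < r z) →
      Z v ∈ U ∧ Z v ≠ v ∧ Q v p0 < Q v (Z v) ∧ r (W v) < r (Z v)) : K.card < 72 := by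
  classical
  by_contra hcard
  push Not at hcard
  -- type
  let T : α → Prop := fun v => ∃ z ∈ U, z ≠ v ∧ Q v p0 < Q v z ∧ r (W v) < r z
  have hsplit := Finset.card_filter_add_card_filter_not (s := K) T
  have hWinj : ∀ a ∈ K, ∀ b ∈ K, r (W a) = r (W b) → a = b := by
    intro a ha b hb hab
    by_contra hne
    have h1 := B.inj _ (hone a ha).wU _ (hone b hb).wU hab
    exact (hconf a ha b hb hne).2.2 h1.symm
  have hseq : ∀ (n : ℕ) (s : ℕ → α), (∀ i < n, s i ∈ K) →
      (∀ i < n, ∀ j < n, i < j → r (W (s i)) < r (W (s j))) →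
      SeqB O U p0 r n s (fun i => W (s i)) (fun i => Q (s i)) := by
    intro n s hs1 hs2
    have hsinj : ∀ i < n, ∀ j < n, s i = s j → i = j := by
      intro i hi j hj hij
      rcases lt_trichotomy i j with h1 | h1 | h1
      · have := hs2 i hi j hj h1
        rw [hij] at this; omega
      · exact h1
      · have := hs2 j hj i hi h1
        rw [hij] at this; omega
    refine ⟨fun i hi => hone _ (hs1 i hi), hsinj, ?_, hs2, fun i hi => hbad _ (hs1 i hi)⟩
    intro i hi j hj e
    by_cases hij : s i = s j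
    · have := (hone _ (hs1 i hi)).wv
      rw [hij] at this
      rw [hij] at e
      exact this e
    · exact (hconf _ (hs1 i hi) _ (hs1 j hj) hij).1 e.symm
  by_cases hL : 36 ≤ (K.filter T).card
  · obtain ⟨s, hs1, hs2⟩ := enumerate (fun a => r (W a)) p0 24 (K.filter T)
      (fun a ha b hb => hWinj a (Finset.mem_filter.1 ha).1 b (Finset.mem_filter.1 hb).1)
      (by omega)
    have hs1' : ∀ i < 24, s i ∈ K := fun i hi => (Finset.mem_filter.1 (hs1 i hi)).1
    have hsT : ∀ i < 24, T (s i) := fun i hi => (Finset.mem_filter.1 (hs1 i hi)).2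
    have S := hseq 24 s hs1' hs2
    have SL : SeqL O U p0 r 24 s (fun i => W (s i)) (fun i => Z (s i)) (fun i => Q (s i)) := by
      refine ⟨S, ?_, ?_⟩
      · intro i hi
        obtain ⟨z1, z2, z3, z4⟩ := hZ _ (hs1' i hi) (hsT i hi)
        exact ⟨S.one i hi, z1, z2, z3, z4⟩
      · intro i hi j hj e
        by_cases hij : s i = s j
        · have := (hZ _ (hs1' i hi) (hsT i hi)).2.1
          rw [hij] at this
          simp only [hij] at e
          exact this e
        · exact (hconf _ (hs1' i hi) _ (hs1' j hj) hij).2.1 e.symm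
    exact SL.impossible h B
  · obtain ⟨s, hs1, hs2⟩ := enumerate (fun a => r (W a)) p0 36 (K.filter (fun v => ¬ T v))
      (fun a ha b hb => hWinj a (Finset.mem_filter.1 ha).1 b (Finset.mem_filter.1 hb).1)
      (by omega)
    have hs1' : ∀ i < 36, s i ∈ K := fun i hi => (Finset.mem_filter.1 (hs1 i hi)).1
    have hsT : ∀ i < 36, ¬ T (s i) := fun i hi => (Finset.mem_filter.1 (hs1 i hi)).2
    have S := hseq 36 s hs1' hs2
    have SR : SeqR O U p0 r 36 s (fun i => W (s i)) (fun i => Q (s i)) := by
      refine ⟨S, ?_⟩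
      intro i hi c hc hcv hcr
      have h1 := hsT i hi
      have C := S.one i hi
      have hc0 : c ≠ p0 := B.ne_first C.wU hcr
      rcases C.ord.lt_or (C.me hc hcv) (C.pm B) hc0 with h2 | h2
      · exact h2
      · exact absurd ⟨c, hc, hcv, h2, hcr⟩ h1
    exact SR.impossible h B

/-- number of critical deletions of a stretched set -/
theorem crit_bound (h : Ax O) (B : Ord O U p0 r) (K : Finset α)
    (hK : ∀ v ∈ K, v ∈ U ∧ ∃ w, Good O (U.erase v) w ∧ ¬ Good O U w) : K.card ≤ 4176 := by
  classical
  by_contra hcard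
  push Not at hcard
  let C := K.erase p0
  have hC : 4176 ≤ C.card := by
    have := Finset.pred_card_le_card_erase (s := K) (a := p0)
    show 4176 ≤ (K.erase p0).card
    omega
  have hCK : ∀ v ∈ C, v ∈ K ∧ v ≠ p0 := by
    intro v hv
    have := Finset.mem_erase.1 hv
    exact ⟨this.2, this.1⟩
  have hGp : Good O U p0 := ⟨r, B⟩
  have hW : ∀ v, ∃ w, ∃ q : α → ℕ, v ∈ C → (Ord O (U.erase v) w q ∧ ¬ Good O U w) := by
    intro v
    by_cases hv : v ∈ C
    · obtain ⟨_, w, ⟨q, hq⟩, hw⟩ := hK v (hCK v hv).1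
      exact ⟨w, q, fun _ => ⟨hq, hw⟩⟩
    · exact ⟨v, r, fun h1 => absurd h1 hv⟩
  choose W Q hWQ using hW
  have hZ : ∀ v, ∃ z, (∃ z ∈ U, z ≠ v ∧ Q v p0 < Q v z ∧ r (W v) < r z) →
      z ∈ U ∧ z ≠ v ∧ Q v p0 < Q v z ∧ r (W v) < r z := by
    intro v
    by_cases h1 : ∃ z ∈ U, z ≠ v ∧ Q v p0 < Q v z ∧ r (W v) < r z
    · obtain ⟨z, hz⟩ := h1
      exact ⟨z, fun _ => hz⟩
    · exact ⟨v, fun h2 => absurd h2 h1⟩
  choose Z hZ' using hZ
  have hfib : ∀ x, (C.filter (fun v => W v = W x)).card ≤ 12 ∨ x ∉ C := by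
    intro x
    by_cases hx : x ∈ C
    · left
      by_contra hcon
      push Not at hcon
      apply (hWQ x hx).2
      apply good_of_many h U.card U (W x) (C.filter (fun v => W v = W x)) (le_refl _)
        (Finset.mem_of_mem_erase (hWQ x hx).1.mem) _ _ (by omega)
      · intro v hv
        have hv' := Finset.mem_filter.1 hv
        have := (hWQ v hv'.1).1
        rw [hv'.2] at this
        exact ⟨_, this⟩
      · intro v hv
        have hv' := Finset.mem_filter.1 hv
        exact (hK v (hCK v hv'.1).1).1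
      · intro hv
        have hv' := Finset.mem_filter.1 hv
        have := (hWQ _ hv'.1).1.mem
        rw [hv'.2] at this
        exact absurd rfl (Finset.ne_of_mem_erase this)
    · exact Or.inr hx
  obtain ⟨K', hK'C, hK'card, hK'i⟩ := conflict 14
    (fun v => {W v, Z v} ∪ C.filter (fun u => W u = W v)) 144 C
    (by
      intro a ha
      have h1 := Finset.card_union_le ({W a, Z a} : Finset α) (C.filter (fun u => W u = W a))
      have h2 : ({W a, Z a} : Finset α).card ≤ 2 := Finset.card_le_two
      have h3 := (hfib a).resolve_right (fun h4 => h4 ha)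
      show ({W a, Z a} ∪ C.filter (fun u => W u = W a)).card ≤ 14
      omega) (by omega)
  have hconf : ∀ a ∈ K', ∀ b ∈ K', a ≠ b → b ≠ W a ∧ b ≠ Z a ∧ W b ≠ W a := by
    intro a ha b hb hab
    have h1 := hK'i a ha b hb hab
    simp only [Finset.mem_union, Finset.mem_insert, Finset.mem_singleton, Finset.mem_filter,
      not_or, not_and] at h1
    exact ⟨h1.1.1, h1.1.2, h1.2 (hK'C hb)⟩
  have hW0 : ∀ v ∈ C, W v ≠ p0 := by
    intro v hv e
    have := (hWQ v hv).2
    rw [e] at this
    exact this hGp
  have hWU : ∀ v ∈ C, W v ∈ U := fun v hv => Finset.mem_of_mem_erase (hWQ v hv).1.mem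
  have hsub : ∀ v, U.erase v ⊆ U := fun v => Finset.erase_subset _ _
  let Sg : α → Prop := fun v => ∀ z ∈ U, z ≠ v → r (W v) < r z → O p0 (W v) z
  have hsplit := Finset.card_filter_add_card_filter_not (s := K') Sg
  have hpm : ∀ v ∈ C, p0 ∈ U.erase v := fun v hv =>
    Finset.mem_erase.2 ⟨(hCK v hv).2.symm, B.mem⟩
  have hneg : ∀ v ∈ C, ¬ Sg v → ∀ z ∈ U, z ≠ v → r (W v) < r z → O p0 z (W v) := by
    intro v hv hn z hz hzv hzr
    by_contra h1
    apply hn
    intro z' hz' hzv' hzr'
    have hz0 : z ≠ p0 := B.ne_first (hWU v hv) hzr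
    have hne : z ≠ W v := by
      intro e; rw [e] at hzr; omega
    have h2 : O p0 (W v) z := h.nn hne hz0 (hW0 v hv) h1
    exact Ord.Hw h B (hsub v) (hpm v hv) (hWQ v hv).1 (hW0 v hv)
      (Finset.mem_erase.2 ⟨hzv, hz⟩) (Finset.mem_erase.2 ⟨hzv', hz'⟩) hzr hzr' h2
  by_cases hP : 72 ≤ (K'.filter Sg).card
  · have := positive_case h B (K'.filter Sg) W Z Q
      (by
        intro v hv
        have hv1 := (Finset.mem_filter.1 hv).1
        have hv2 := (Finset.mem_filter.1 hv).2
        have hvC := hK'C hv1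
        exact ⟨(hK v (hCK v hvC).1).1, (hCK v hvC).2, hW0 v hvC, (hWQ v hvC).1, hv2⟩)
      (by
        intro v hv
        exact (hWQ v (hK'C (Finset.mem_filter.1 hv).1)).2)
      (by
        intro a ha b hb
        exact hconf a (Finset.mem_filter.1 ha).1 b (Finset.mem_filter.1 hb).1)
      (by
        intro v hv
        exact hZ' v)
    omega
  · have := positive_case h.flip (B.flip h) (K'.filter (fun v => ¬ Sg v)) W Z Q
      (by
        intro v hv
        have hv1 := (Finset.mem_filter.1 hv).1
        have hv2 := (Finset.mem_filter.1 hv).2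
        have hvC := hK'C hv1
        exact ⟨(hK v (hCK v hvC).1).1, (hCK v hvC).2, hW0 v hvC, (hWQ v hvC).1.flip h,
          hneg v hvC hv2⟩)
      (by
        intro v hv hg
        exact (hWQ v (hK'C (Finset.mem_filter.1 hv).1)).2 (hg.unflip h))
      (by
        intro a ha b hb
        exact hconf a (Finset.mem_filter.1 ha).1 b (Finset.mem_filter.1 hb).1)
      (by
        intro v hv
        exact hZ' v)
    omega

/-- **Abstract theorem**: minimal sets without a stretched order have at most 4333 elements. -/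
theorem obstacle_bound (h : Ax O) (S : Finset α) (hbad : ∀ w, ¬ Good O S w)
    (hgood : ∀ v ∈ S, ∃ w, Good O (S.erase v) w) : S.card ≤ 4333 := by
  classical
  rcases S.eq_empty_or_nonempty with hS | hS
  · rw [hS]; simp
  have hD : ∀ w ∈ S, (S.filter (fun v => Good O (S.erase v) w)).card ≤ 12 := by
    intro w hw
    by_contra hcon
    push Not at hcon
    apply hbad w
    apply good_of_many h S.card S w (S.filter (fun v => Good O (S.erase v) w)) (le_refl _) hw
      (Finset.filter_subset _ _) _ (by omega)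
    · intro v hv
      exact (Finset.mem_filter.1 hv).2
    · intro hv
      have := (Finset.mem_filter.1 hv).2.mem
      exact absurd rfl (Finset.ne_of_mem_erase this)
  have hG : ∃ x ∈ S, (S.filter (fun w => Good O (S.erase x) w)).card ≤ 12 := by
    by_contra hcon
    push Not at hcon
    have h1 : ∑ w ∈ S, (S.filter (fun v => Good O (S.erase v) w)).card
        = ∑ v ∈ S, (S.filter (fun w => Good O (S.erase v) w)).card := by
      exact Finset.sum_card_bipartiteAbove_eq_sum_card_bipartiteBelow
        (fun w v => Good O (S.erase v) w)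
    have h2 : ∑ w ∈ S, (S.filter (fun v => Good O (S.erase v) w)).card ≤ ∑ _w ∈ S, 12 :=
      Finset.sum_le_sum hD
    have h3 : ∑ _x ∈ S, 13 ≤ ∑ v ∈ S, (S.filter (fun w => Good O (S.erase v) w)).card := by
      apply Finset.sum_le_sum
      intro x hx
      exact hcon x hx
    rw [Finset.sum_const, smul_eq_mul] at h2 h3
    have := hS.card_pos
    omega
  obtain ⟨x, hx, hGx⟩ := hG
  have hW : ∀ v, ∃ w, v ∈ S → Good O (S.erase v) w := by
    intro v
    by_cases hv : v ∈ S
    · obtain ⟨w, hw⟩ := hgood v hv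
      exact ⟨w, fun _ => hw⟩
    · exact ⟨v, fun h1 => absurd h1 hv⟩
  choose W hW' using hW
  obtain ⟨p0, r, B⟩ := hgood x hx
  let K := (S.erase x).filter (fun v => W v ≠ x ∧ ¬ Good O (S.erase x) (W v))
  have hKb : K.card ≤ 4176 := by
    apply crit_bound h B K
    intro v hv
    have hv1 := Finset.mem_filter.1 hv
    have hvS := Finset.mem_of_mem_erase hv1.1
    refine ⟨hv1.1, W v, ?_, hv1.2.2⟩
    rw [Finset.erase_right_comm]
    exact (hW' v hvS).mono (Finset.erase_subset _ _)
      (Finset.mem_erase.2 ⟨hv1.2.1, (hW' v hvS).mem⟩)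
  let D : α → Finset α := fun w => S.filter (fun v => Good O (S.erase v) w)
  have hcover : S.erase x ⊆ K ∪ (D x ∪ (S.filter (fun w => Good O (S.erase x) w)).biUnion D) := by
    intro v hv
    have hvS := Finset.mem_of_mem_erase hv
    have hWv := hW' v hvS
    by_cases h1 : W v = x
    · apply Finset.mem_union_right
      apply Finset.mem_union_left
      rw [h1] at hWv
      exact Finset.mem_filter.2 ⟨hvS, hWv⟩
    · by_cases h2 : Good O (S.erase x) (W v)
      · apply Finset.mem_union_right
        apply Finset.mem_union_right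
        rw [Finset.mem_biUnion]
        exact ⟨W v, Finset.mem_filter.2 ⟨Finset.mem_of_mem_erase h2.mem, h2⟩,
          Finset.mem_filter.2 ⟨hvS, hWv⟩⟩
      · apply Finset.mem_union_left
        exact Finset.mem_filter.2 ⟨hv, h1, h2⟩
  have c1 := Finset.card_le_card hcover
  have c2 := Finset.card_union_le K (D x ∪ (S.filter (fun w => Good O (S.erase x) w)).biUnion D)
  have c3 := Finset.card_union_le (D x) ((S.filter (fun w => Good O (S.erase x) w)).biUnion D)
  have c4 : ((S.filter (fun w => Good O (S.erase x) w)).biUnion D).card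
      ≤ (S.filter (fun w => Good O (S.erase x) w)).card * 12 := by
    apply Finset.card_biUnion_le_card_mul
    intro w hw
    exact hD w (Finset.mem_filter.1 hw).1
  have c5 := hD x hx
  have c6 : (D x).card ≤ 12 := c5
  rw [Finset.card_erase_of_mem hx] at c1
  omega

end Pool.Agent.H53.Str
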