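import Pool.Agent.H53.StrBasic

/-! Comparison of two stretched orders: facts about `U` and `U` minus a point. -/

namespace Pool.Agent.H53.Str

set_option linter.unusedSectionVars false

variable {α : Type*} [DecidableEq α] {O : α → α → α → Prop}
variable {U : Finset α} {p0 : α} {r : α → ℕ}

section base

lemma Ord.le_first {Y : Finset α} {w : α} {q : α → ℕ} (B : Ord O Y w q) {y : α} (hy : y ∈ Y) :
    q w ≤ q y := by
  by_cases e : y = w
  · rw [e]
  · exact (B.first y hy e).le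

lemma Ord.ne_first {Y : Finset α} {w : α} {q : α → ℕ} (B : Ord O Y w q) {x y : α} (hx : x ∈ Y)
    (h : q x < q y) : y ≠ w := by
  rintro rfl
  have := B.le_first hx
  omega

lemma Ord.ne_of_lt {q : α → ℕ} {x y : α} (h : q x < q y) : x ≠ y := by
  rintro rfl
  omega

/-- total order by rank -/
lemma Ord.lt_or {Y : Finset α} {w : α} {q : α → ℕ} (B : Ord O Y w q) {x y : α} (hx : x ∈ Y)
    (hy : y ∈ Y) (h : x ≠ y) : q x < q y ∨ q y < q x := by
  rcases lt_trichotomy (q x) (q y) with h1 | h1 | h1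
  · exact Or.inl h1
  · exact absurd (B.inj x hx y hy h1) h
  · exact Or.inr h1

/-- first of the three elements in the first place -/
lemma Ord.K1 (h : Ax O) (B : Ord O U p0 r) {x b c : α} (hx : x ∈ U) (hb : b ∈ U) (hc : c ∈ U)
    (h1 : r x < r b) (h2 : r x < r c) : O x b c ↔ O p0 b c := by
  have h3 := B.le_first hx
  exact B.st h hx B.mem hb hc h1 h2 (by omega) (by omega)

lemma Ord.K2 (h : Ax O) (B : Ord O U p0 r) {x b c : α} (hx : x ∈ U) (hb : b ∈ U) (hc : c ∈ U)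
    (h1 : r b < r x) (h2 : r b < r c) : O x b c ↔ O p0 c x := by
  rw [h.rot_iff x b c]
  exact B.K1 h hb hc hx h2 h1

lemma Ord.K3 (h : Ax O) (B : Ord O U p0 r) {x b c : α} (hx : x ∈ U) (hb : b ∈ U) (hc : c ∈ U)
    (h1 : r c < r x) (h2 : r c < r b) : O x b c ↔ O p0 x b := by
  rw [h.rot_iff x b c, h.rot_iff b c x]
  exact B.K1 h hc hx hb h1 h2

lemma Ord.trans (h : Ax O) (B : Ord O U p0 r) {a b c : α} (ha : a ∈ U) (hb : b ∈ U) (hc : c ∈ U)
    (h1 : O p0 a b) (h2 : O p0 b c) : O p0 a c := by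
  have hac : a ≠ c := by
    rintro rfl
    exact h.asym _ _ _ h1 h2
  rw [← h.not_iff (h.ne13 h2) hac.symm (h.ne12 h1)]
  exact B.hull a ha b hb c hc h1 h2

lemma Ax.tot' (h : Ax O) {a b : α} (hab : a ≠ b) (ha : a ≠ p0) (hb : b ≠ p0) :
    O p0 a b ∨ O p0 b a :=
  h.tot p0 a b ha.symm hab hb.symm

lemma Ax.nn (h : Ax O) {a b : α} (hab : a ≠ b) (ha : a ≠ p0) (hb : b ≠ p0)
    (h1 : ¬ O p0 a b) : O p0 b a := by
  rcases h.tot' hab ha hb with h2 | h2
  · exact absurd h2 h1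
  · exact h2

/-- lower element of `Y`: below all later elements -/
def Lo (O : α → α → α → Prop) (p0 : α) (r : α → ℕ) (Y : Finset α) (y : α) : Prop :=
  ∀ c ∈ Y, r y < r c → O p0 y c

/-- upper element of `Y`: above all later elements -/
def Up (O : α → α → α → Prop) (p0 : α) (r : α → ℕ) (Y : Finset α) (y : α) : Prop :=
  ∀ c ∈ Y, r y < r c → O p0 c y

lemma Lo.mono {Y Z : Finset α} {y : α} (h : Lo O p0 r Y y) (hZ : Z ⊆ Y) : Lo O p0 r Z y :=
  fun c hc => h c (hZ hc)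

lemma Up.mono {Y Z : Finset α} {y : α} (h : Up O p0 r Y y) (hZ : Z ⊆ Y) : Up O p0 r Z y :=
  fun c hc => h c (hZ hc)

/-- a lower element is on the hull -/
lemma hull_of_lo (h : Ax O) (B : Ord O U p0 r) {Y : Finset α} (hY : Y ⊆ U) {w : α} (hw : w ∈ U)
    (hw0 : w ≠ p0) (hL : Lo O p0 r Y w) : Hull O Y w := by
  -- a earlier, b later : not (O w a b)
  have f1 : ∀ a ∈ Y, ∀ b ∈ Y, r a < r w → r w < r b → ¬ O w a b := by
    intro a ha b hb h1 h2 h3
    rw [B.K2 h hw (hY ha) (hY hb) h1 (by omega)] at h3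
    exact h.asym _ _ _ h3 (hL b hb h2)
  -- both earlier
  have f2 : ∀ a ∈ Y, ∀ b ∈ Y, r a < r b → r b < r w → (O w a b ↔ O p0 b w) := by
    intro a ha b hb h1 h2
    exact B.K2 h hw (hY ha) (hY hb) (by omega) h1
  have f3 : ∀ a ∈ Y, ∀ b ∈ Y, r a < r b → r b < r w → (O w b a ↔ O p0 w b) := by
    intro a ha b hb h1 h2
    exact B.K3 h hw (hY hb) (hY ha) (by omega) h1
  have f4 : ∀ a ∈ Y, ∀ b ∈ Y, r w < r a → r w < r b → (O w a b ↔ O p0 a b) := by
    intro a ha b hb h1 h2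
    exact B.K1 h hw (hY ha) (hY hb) h1 h2
  -- positions
  have key : ∀ a ∈ Y, ∀ b ∈ Y, ∀ c ∈ Y, O w a b → O w b c → O w c a → r w < r a ∧ r w < r b := by
    intro a ha b hb c hc h1 h2 h3
    have ea := h.ne12 h1
    have eb := h.ne12 h2
    have ec := h.ne12 h3
    have la := B.lt_or hw (hY ha) ea
    have lb := B.lt_or hw (hY hb) eb
    have lc := B.lt_or hw (hY hc) ec
    -- a earlier implies b earlier
    have g1 : ∀ a ∈ Y, ∀ b ∈ Y, w ≠ b → O w a b → r a < r w → r b < r w := by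
      intro a ha b hb eb h1 h2
      rcases B.lt_or hw (hY hb) eb with h3 | h3
      · exact absurd h1 (f1 a ha b hb h2 h3)
      · exact h3
    by_cases hall : r a < r w ∨ r b < r w ∨ r c < r w
    · exfalso
      have hall' : r a < r w ∧ r b < r w ∧ r c < r w := by
        rcases hall with h4 | h4 | h4
        · have h5 := g1 a ha b hb eb h1 h4
          have h6 := g1 b hb c hc ec h2 h5
          exact ⟨h4, h5, h6⟩
        · have h6 := g1 b hb c hc ec h2 h4
          have h5 := g1 c hc a ha ea h3 h6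
          exact ⟨h5, h4, h6⟩
        · have h6 := g1 c hc a ha ea h3 h4
          have h5 := g1 a ha b hb eb h1 h6
          exact ⟨h6, h5, h4⟩
      obtain ⟨ka, kb, kc⟩ := hall'
      -- generic contradiction when b is the latest
      have g2 : ∀ a ∈ Y, ∀ b ∈ Y, ∀ c ∈ Y, r a < r b → r c < r b → r b < r w → O w a b →
          O w b c → False := by
        intro a ha b hb c hc h1 h2 h3 h4 h5
        have h6 := (f2 a ha b hb h1 h3).1 h4
        have h7 := (f3 c hc b hb h2 h3).1 h5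
        exact h.asym _ _ _ h6 h7
      have nab := h.ne23 h1
      have nbc := h.ne23 h2
      have nca := h.ne23 h3
      rcases B.lt_or (hY ha) (hY hb) nab with l1 | l1 <;>
        rcases B.lt_or (hY hb) (hY hc) nbc with l2 | l2 <;>
        rcases B.lt_or (hY hc) (hY ha) nca with l3 | l3
      · omega
      · exact g2 b hb c hc a ha l2 (by omega) kc h2 h3
      · exact g2 a ha b hb c hc l1 l2 kb h1 h2
      · exact g2 a ha b hb c hc l1 l2 kb h1 h2
      · exact g2 c hc a ha b hb l3 l1 ka h3 h1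
      · exact g2 b hb c hc a ha l2 l3 kc h2 h3
      · exact g2 c hc a ha b hb l3 l1 ka h3 h1
      · omega
    · push Not at hall
      have := B.inj w hw a (hY ha)
      have := B.inj w hw b (hY hb)
      constructor
      · rcases la with h4 | h4
        · exact h4
        · omega
      · rcases lb with h4 | h4
        · exact h4
        · omega
  intro a ha b hb c hc h1 h2 h3
  obtain ⟨ka, kb⟩ := key a ha b hb c hc h1 h2 h3
  obtain ⟨_, kc⟩ := key b hb c hc a ha h2 h3 h1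
  exact B.hull a (hY ha) b (hY hb) c (hY hc) ((f4 a ha b hb ka kb).1 h1)
    ((f4 b hb c hc kb kc).1 h2) ((f4 c hc a ha kc ka).1 h3)

end base

/-- One deleted point `v`, and a stretched order `q` of the rest with first element `w`,
positive sign. -/
structure One (O : α → α → α → Prop) (U : Finset α) (p0 : α) (r : α → ℕ) (v w : α)
    (q : α → ℕ) : Prop where
  vU : v ∈ U
  v0 : v ≠ p0
  w0 : w ≠ p0
  ord : Ord O (U.erase v) w q
  sgn : ∀ z ∈ U, z ≠ v → r w < r z → O p0 w z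

section one

variable {v w : α} {q : α → ℕ}

lemma One.wU (C : One O U p0 r v w q) : w ∈ U := Finset.mem_of_mem_erase C.ord.mem

lemma One.wv (C : One O U p0 r v w q) : w ≠ v := Finset.ne_of_mem_erase C.ord.mem

lemma One.me (_ : One O U p0 r v w q) {x : α} (hx : x ∈ U) (hv : x ≠ v) : x ∈ U.erase v :=
  Finset.mem_erase.2 ⟨hv, hx⟩

lemma Ord.G (h : Ax O) {Y : Finset α} {w : α} {q : α → ℕ} (C : Ord O Y w q) (hp : p0 ∈ Y)
    {a a' z : α} (ha : a ∈ Y) (ha' : a' ∈ Y) (hz : z ∈ Y) (h1 : q a < q p0) (h2 : q a' < q p0)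
    (h3 : q a < q z) (h4 : q a' < q z) : O p0 a z ↔ O p0 a' z := by
  rw [← h.rot_iff z p0 a, ← h.rot_iff a z p0, ← h.rot_iff z p0 a', ← h.rot_iff a' z p0]
  exact C.st h ha ha' hz hp h3 h1 h4 h2

lemma Ord.C1 (h : Ax O) (B : Ord O U p0 r) {Y : Finset α} (hY : Y ⊆ U) {w : α} {q : α → ℕ}
    (C : Ord O Y w q)
    {b c x : α} (hb : b ∈ Y) (hc : c ∈ Y) (hx : x ∈ Y) (h1 : q b < q c) (h2 : r b < r c)
    (h3 : r b < r w) (h4 : q x < q b) (h5 : r x < r b) : O p0 b c ↔ O p0 c w := by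
  have h6 := C.le_first hx
  have h7 := C.st h hx C.mem hb hc h4 (by omega) (by omega) (by omega)
  rw [B.K1 h (hY hx) (hY hb) (hY hc) h5 (by omega),
    B.K2 h (hY C.mem) (hY hb) (hY hc) h3 h2] at h7
  exact h7

lemma Ord.C2 (h : Ax O) (B : Ord O U p0 r) {Y : Finset α} (hY : Y ⊆ U) {w : α} {q : α → ℕ}
    (C : Ord O Y w q)
    {b c y : α} (hb : b ∈ Y) (hc : c ∈ Y) (hy : y ∈ Y) (h1 : q b < q c) (h2 : r b < r c)
    (h3 : r w < r b) (h4 : q y < q b) (h5 : r b < r y) : O p0 b c ↔ O p0 c y := by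
  have h6 := C.le_first hy
  have h7 := C.st h C.mem hy hb hc (by omega) (by omega) h4 (by omega)
  rw [B.K1 h (hY C.mem) (hY hb) (hY hc) h3 (by omega),
    B.K2 h (hY hy) (hY hb) (hY hc) h5 h2] at h7
  exact h7

lemma Ord.V (h : Ax O) (B : Ord O U p0 r) {Y : Finset α} (hY : Y ⊆ U) (hp : p0 ∈ Y) {w : α}
    {q : α → ℕ} (C : Ord O Y w q)
    {y c : α} (hy : y ∈ Y) (hc : c ∈ Y) (h1 : q p0 < q y) (h2 : q p0 < q c)
    (h3 : r y < r w) (h4 : r y < r c) : O p0 c y ↔ O p0 w c := by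
  have h6 := C.le_first hp
  have h7 := C.st h hp C.mem hc hy (by omega) (by omega) (by omega) (by omega)
  rw [B.K3 h (hY C.mem) (hY hc) (hY hy) h3 h4] at h7
  exact h7

/-- the first element `w` sees all later elements on one side -/
lemma Ord.Hw (h : Ax O) (B : Ord O U p0 r) {Y : Finset α} (hY : Y ⊆ U) (hp : p0 ∈ Y) {w : α}
    {q : α → ℕ} (C : Ord O Y w q) (hw0 : w ≠ p0)
    {z z' : α} (hz : z ∈ Y) (hz' : z' ∈ Y) (h1 : r w < r z) (h2 : r w < r z')
    (h3 : O p0 w z) : O p0 w z' := by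
  have hz0 : z ≠ p0 := by
    rintro rfl
    have := B.le_first (hY C.mem)
    omega
  have hz0' : z' ≠ p0 := by
    rintro rfl
    have := B.le_first (hY C.mem)
    omega
  have hwz' : w ≠ z' := by rintro rfl; omega
  by_contra hc
  have h4 : O p0 z' w := h.nn hwz' hw0 hz0' hc
  have h5 : O p0 z' z := B.trans h (hY hz') (hY C.mem) (hY hz) h4 h3
  have h6 : O w z' z := (B.K1 h (hY C.mem) (hY hz') (hY hz) h2 h1).2 h5
  have h7 : O w z p0 := h.rot _ _ _ h3
  have h8 : O w p0 z' := h.rot _ _ _ (h.rot _ _ _ h4)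
  exact C.hull p0 hp z' hz' z hz h8 h6 h7

end one

/-- Left type: some late `z` is later than `w`. -/
structure LeftT (O : α → α → α → Prop) (U : Finset α) (p0 : α) (r : α → ℕ) (v w : α)
    (q : α → ℕ) (z : α) : Prop extends One O U p0 r v w q where
  zU : z ∈ U
  zv : z ≠ v
  zlate : q p0 < q z
  zr : r w < r z

section left

variable {v w z : α} {q : α → ℕ}

lemma One.pm (B : Ord O U p0 r) (C : One O U p0 r v w q) : p0 ∈ U.erase v :=
  Finset.mem_erase.2 ⟨C.v0.symm, B.mem⟩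

lemma One.wp (B : Ord O U p0 r) (C : One O U p0 r v w q) : q w < q p0 :=
  C.ord.first p0 (C.pm B) C.w0.symm

lemma One.sub (_ : One O U p0 r v w q) : U.erase v ⊆ U := Finset.erase_subset _ _

lemma LeftT.wz (C : LeftT O U p0 r v w q z) : O p0 w z := C.sgn z C.zU C.zv C.zr

/-- late elements before `w` are above `z` -/
lemma LeftT.late_above (h : Ax O) (B : Ord O U p0 r) (C : LeftT O U p0 r v w q z) {y : α}
    (hy : y ∈ U) (hyv : y ≠ v) (h1 : q p0 < q y) (h2 : r y < r w) : O p0 z y := by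
  have h3 := C.zr
  have hV := Ord.V h B C.sub (C.pm B) C.ord (C.me hy hyv) (C.me C.zU C.zv) h1 C.zlate h2
    (by omega)
  exact hV.2 C.wz

lemma LeftT.w_late (h : Ax O) (B : Ord O U p0 r) (C : LeftT O U p0 r v w q z) {y : α}
    (hy : y ∈ U) (hyv : y ≠ v) (h1 : q p0 < q y) (h2 : r y < r w) : O p0 w y :=
  B.trans h C.wU C.zU hy C.wz (C.late_above h B hy hyv h1 h2)

/-- late elements before `w` are upper -/
lemma LeftT.late_up (h : Ax O) (B : Ord O U p0 r) (C : LeftT O U p0 r v w q z) {y : α}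
    (hy : y ∈ U) (hyv : y ≠ v) (h1 : q p0 < q y) (h2 : r y < r w) :
    Up O p0 r (U.erase v) y := by
  intro c hc hyc
  have hc' := Finset.mem_erase.1 hc
  have hwy := C.w_late h B hy hyv h1 h2
  have hc0 : c ≠ p0 := B.ne_first hy hyc
  rcases lt_trichotomy (q c) (q p0) with h3 | h3 | h3
  · -- early
    have := Ord.G h C.ord (C.pm B) C.ord.mem hc (C.me hy hyv) (C.wp B) h3
      (lt_trans (C.wp B) h1) (lt_trans h3 h1)
    exact this.1 hwy
  · exact absurd (C.ord.inj c hc p0 (C.pm B) h3) hc0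
  · -- late
    have hV := Ord.V h B C.sub (C.pm B) C.ord (C.me hy hyv) hc h1 h3 h2 hyc
    rw [hV]
    have hwc : w ≠ c := by
      rintro rfl
      have := C.wp B
      omega
    rcases B.lt_or C.wU hc'.2 hwc with h4 | h4
    · exact C.sgn c hc'.2 hc'.1 h4
    · exact C.w_late h B hc'.2 hc'.1 h3 h4

lemma LeftT.early_below (h : Ax O) (B : Ord O U p0 r) (C : LeftT O U p0 r v w q z) {y : α}
    (hy : y ∈ U) (hyv : y ≠ v) (h1 : q y < q p0) : O p0 y z := by
  have hz := C.zlate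
  have := Ord.G h C.ord (C.pm B) (C.me hy hyv) C.ord.mem (C.me C.zU C.zv) h1 (C.wp B)
    (lt_trans h1 hz) (lt_trans (C.wp B) hz)
  exact this.2 C.wz

/-- no element is before an early `y` in both orders -/
lemma LeftT.early_min (h : Ax O) (B : Ord O U p0 r) (C : LeftT O U p0 r v w q z) {y x : α}
    (hy : y ∈ U) (hyv : y ≠ v) (h1 : q y < q p0) (h2 : r y < r w) (hx : x ∈ U) (hxv : x ≠ v)
    (h3 : r x < r y) : q y < q x := by
  have hne : x ≠ y := by rintro rfl; omega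
  rcases C.ord.lt_or (C.me hx hxv) (C.me hy hyv) hne with h4 | h4
  · exfalso
    have hz := C.zlate
    have hzr := C.zr
    have := Ord.C1 h B C.sub C.ord (C.me hy hyv) (C.me C.zU C.zv) (C.me hx hxv)
      (lt_trans h1 hz) (by omega) h2 h4 h3
    exact h.asym _ _ _ C.wz (this.1 (C.early_below h B hy hyv h1))
  · exact h4

/-- L3, first half -/
lemma LeftT.L3a (h : Ax O) (B : Ord O U p0 r) (C : LeftT O U p0 r v w q z) {y c : α}
    (hy : y ∈ U) (hyv : y ≠ v) (h1 : q y < q p0) (hc : c ∈ U) (hcv : c ≠ v)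
    (h3 : q c < q y) : O p0 y c ↔ O p0 y w := by
  have h4 : q w ≤ q c := C.ord.le_first (C.me hc hcv)
  have h5 : O p0 c y ↔ O p0 w y :=
    Ord.G h C.ord (C.pm B) (C.me hc hcv) C.ord.mem (C.me hy hyv) (by omega) (C.wp B) h3 (by omega)
  have n1 : y ≠ c := by rintro rfl; omega
  have n2 : y ≠ p0 := by rintro rfl; omega
  have n3 : c ≠ p0 := by rintro rfl; omega
  have n4 : y ≠ w := by rintro rfl; omega
  have e1 := h.not_iff n2.symm n1 n3.symm
  have e2 := h.not_iff n2.symm n4 C.w0.symm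
  have e3 := h.not_iff n3.symm n1.symm n2.symm
  have e4 := h.not_iff C.w0.symm n4.symm n2.symm
  tauto

/-- L3 for `c` early and between `y` and `w` -/
lemma LeftT.L3a' (h : Ax O) (B : Ord O U p0 r) (C : LeftT O U p0 r v w q z) {y c : α}
    (hy : y ∈ U) (hyv : y ≠ v) (h1 : q y < q p0) (hc : c ∈ U) (hcv : c ≠ v)
    (h2 : r y < r c) (h3 : q c < q p0) (h4 : r c < r w) : O p0 y c ↔ O p0 y w := by
  apply C.L3a h B hy hyv h1 hc hcv
  exact C.early_min h B hc hcv h3 h4 hy hyv h2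

/-- L3 second half -/
lemma LeftT.L3b (h : Ax O) (B : Ord O U p0 r) (C : LeftT O U p0 r v w q z) {y c : α}
    (hy : y ∈ U) (hyv : y ≠ v) (h1 : q y < q p0) (hc : c ∈ U) (hcv : c ≠ v)
    (h3 : r w < r c) (h4 : q y < q c) : O p0 y c := by
  have h5 : q w ≤ q y := C.ord.le_first (C.me hy hyv)
  have := Ord.G h C.ord (C.pm B) (C.me hy hyv) C.ord.mem (C.me hc hcv) h1 (C.wp B) h4 (by omega)
  rw [this]
  exact C.sgn c hc hcv h3

lemma LeftT.L3c (h : Ax O) (B : Ord O U p0 r) (C : LeftT O U p0 r v w q z) {y c : α}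
    (hy : y ∈ U) (hyv : y ≠ v) (h1 : q y < q p0) (hc : c ∈ U) (hcv : c ≠ v)
    (h3 : q p0 < q c) (h4 : r c < r w) : O p0 y c := by
  have h5 : q w ≤ q y := C.ord.le_first (C.me hy hyv)
  have := Ord.G h C.ord (C.pm B) (C.me hy hyv) C.ord.mem (C.me hc hcv) h1 (C.wp B) (by omega)
    (by omega)
  rw [this]
  exact C.w_late h B hc hcv h3 h4

/-- an early element below `w` is lower -/
lemma LeftT.early_lo (h : Ax O) (B : Ord O U p0 r) (C : LeftT O U p0 r v w q z) {y : α}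
    (hy : y ∈ U) (hyv : y ≠ v) (h1 : q y < q p0) (_h2 : r y < r w) (h3 : O p0 y w) :
    Lo O p0 r (U.erase v) y := by
  intro c hc hyc
  have hc' := Finset.mem_erase.1 hc
  by_cases hcw : c = w
  · rw [hcw]; exact h3
  have hc0 : c ≠ p0 := B.ne_first hy hyc
  rcases B.lt_or hc'.2 C.wU hcw with h4 | h4
  · rcases C.ord.lt_or hc (C.pm B) hc0 with h5 | h5
    · exact (C.L3a' h B hy hyv h1 hc'.2 hc'.1 hyc h5 h4).2 h3
    · exact C.L3c h B hy hyv h1 hc'.2 hc'.1 h5 h4
  · have hne : c ≠ y := by rintro rfl; omega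
    rcases C.ord.lt_or hc (C.me hy hyv) hne with h5 | h5
    · exact (C.L3a h B hy hyv h1 hc'.2 hc'.1 h5).2 h3
    · exact C.L3b h B hy hyv h1 hc'.2 hc'.1 h4 h5

end left

end Pool.Agent.H53.Str
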