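import Pool.Agent.H53.StrCtx

/-! Pure left orders, propagation, and the left type sequences. -/

namespace Pool.Agent.H53.Str

set_option linter.unusedSectionVars false

variable {α : Type*} [DecidableEq α] {O : α → α → α → Prop}
variable {U : Finset α} {p0 : α} {r : α → ℕ}

section general

/-- If all elements up to `w` are upper or lower, and `w` is lower, then `U` has a stretched
order starting at `w`. -/
lemma pureLeft (h : Ax O) (B : Ord O U p0 r) {w : α} (hw : w ∈ U) (hw0 : w ≠ p0)
    (hL : Lo O p0 r U w)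
    (hall : ∀ y ∈ U, y ≠ p0 → r y < r w → Up O p0 r U y ∨ Lo O p0 r U y) : Good O U w := by
  classical
  -- the set of lower elements
  let E : α → Prop := fun y => y ≠ p0 ∧ r y ≤ r w ∧ Lo O p0 r U y
  have hEw : E w := ⟨hw0, le_refl _, hL⟩
  let t : α → ℕ := fun y => if E y then r w - r y else r w + 1 + r y
  have tE : ∀ y, E y → t y = r w - r y := fun y hy => if_pos hy
  have tN : ∀ y, ¬ E y → t y = r w + 1 + r y := fun y hy => if_neg hy
  -- lower element against a non-lower one
  have cmp : ∀ x ∈ U, ∀ c ∈ U, E x → ¬ E c → c ≠ p0 → O p0 x c := by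
    intro x hx c hc hEx hEc hc0
    have hne : x ≠ c := by rintro rfl; exact hEc hEx
    rcases B.lt_or hx hc hne with h1 | h1
    · exact hEx.2.2 c hc h1
    · have h2 : r c < r w := lt_of_lt_of_le h1 hEx.2.1
      rcases hall c hc hc0 h2 with h3 | h3
      · exact h3 x hx h1
      · exact absurd ⟨hc0, h2.le, h3⟩ hEc
  have hxE0 : ∀ x ∈ U, E x → r p0 < r x := fun x hx hE => B.first x hx hE.1
  refine ⟨t, hw, hull_of_lo h B (Finset.Subset.refl U) hw hw0 hL, ?_, ?_, ?_⟩
  · intro a ha b hb hab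
    by_cases h1 : E a <;> by_cases h2 : E b
    · rw [tE a h1, tE b h2] at hab
      have := h1.2.1
      have := h2.2.1
      exact B.inj a ha b hb (by omega)
    · rw [tE a h1, tN b h2] at hab
      omega
    · rw [tN a h1, tE b h2] at hab
      omega
    · rw [tN a h1, tN b h2] at hab
      exact B.inj a ha b hb (by omega)
  · intro y hy hyw
    rw [tE w hEw]
    by_cases h1 : E y
    · rw [tE y h1]
      have h2 := h1.2.1
      have h3 : r y ≠ r w := fun e => hyw (B.inj y hy w hw e)
      omega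
    · rw [tN y h1]; omega
  · -- b in E : false
    have caseE : ∀ x ∈ U, ∀ b ∈ U, ∀ c ∈ U, E b → t x < t b → t b < t c → ¬ O x b c := by
      intro x hx b hb c hc hEb h1 h2 h3
      have hEx : E x := by
        by_contra hn
        rw [tN x hn, tE b hEb] at h1
        omega
      rw [tE x hEx, tE b hEb] at h1
      have hbw := hEb.2.1
      have hxw := hEx.2.1
      have hbx : r b < r x := by omega
      have hPbx : O p0 b x := hEb.2.2 x hx hbx
      by_cases hEc : E c
      · rw [tE b hEb, tE c hEc] at h2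
        have hcw := hEc.2.1
        have hcb : r c < r b := by omega
        rw [B.K3 h hx hb hc (by omega) hcb] at h3
        exact h.asym _ _ _ h3 hPbx
      · by_cases hc0 : c = p0
        · rw [hc0, B.K3 h hx hb B.mem (hxE0 x hx hEx) (hxE0 b hb hEb)] at h3
          exact h.asym _ _ _ h3 hPbx
        · have hxc := cmp x hx c hc hEx hEc hc0
          have hbc : b ≠ c := by rintro rfl; exact hEc hEb
          rcases B.lt_or hb hc hbc with h4 | h4
          · rw [B.K2 h hx hb hc hbx h4] at h3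
            exact h.asym _ _ _ h3 hxc
          · rw [B.K3 h hx hb hc (by omega) h4] at h3
            exact h.asym _ _ _ h3 hPbx
    -- value when b is not in E
    have caseN : ∀ x ∈ U, ∀ b ∈ U, ∀ c ∈ U, ¬ E b → t x < t b → t b < t c →
        (O x b c ↔ (b ≠ p0 ∧ O p0 b c)) := by
      intro x hx b hb c hc hEb h1 h2
      have hEc : ¬ E c := by
        intro hn
        rw [tE c hn, tN b hEb] at h2
        omega
      rw [tN b hEb, tN c hEc] at h2
      have hbc : r b < r c := by omega
      have hc0 : c ≠ p0 := B.ne_first hb hbc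
      by_cases hxb : r x < r b
      · have hb0 : b ≠ p0 := B.ne_first hx hxb
        rw [B.K1 h hx hb hc hxb (by omega)]
        exact ⟨fun h4 => ⟨hb0, h4⟩, fun h4 => h4.2⟩
      · have hEx : E x := by
          by_contra hn
          rw [tN x hn, tN b hEb] at h1
          omega
        have hxb' : r b < r x := by
          have hne : x ≠ b := by rintro rfl; exact hEb hEx
          rcases B.lt_or hx hb hne with h4 | h4
          · omega
          · exact h4
        rw [B.K2 h hx hb hc hxb' hbc]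
        have hxc := cmp x hx c hc hEx hEc hc0
        constructor
        · intro h4
          exact absurd hxc (h.asym _ _ _ h4)
        · rintro ⟨hb0, h5⟩
          have hbw : r b < r w := lt_of_lt_of_le hxb' hEx.2.1
          rcases hall b hb hb0 hbw with h6 | h6
          · exact absurd h5 (h.asym _ _ _ (h6 c hc hbc))
          · exact absurd ⟨hb0, hbw.le, h6⟩ hEb
    intro x hx x' hx' b hb c hc h1 h2 h3 h4
    by_cases hEb : E b
    · exact absurd h4 (caseE x hx b hb c hc hEb h1 h3)
    · rw [caseN x hx b hb c hc hEb h1 h3] at h4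
      rw [caseN x' hx' b hb c hc hEb h2 h3]
      exact h4

/-- two lower elements with only upper elements in between are partners -/
lemma partnerLower (h : Ax O) (B : Ord O U p0 r) {Y : Finset α} (hY : Y ⊆ U) {l l' : α}
    (hl : l ∈ U) (hl' : l' ∈ U) (hlt : r l < r l') (hL : Lo O p0 r U l) (hL' : Lo O p0 r U l')
    (hbet : ∀ b ∈ Y, r l < r b → r b < r l' → Up O p0 r U b)
    (hpar : ∀ b ∈ Y, b ≠ p0 → r b < r l → (O p0 b l ↔ O p0 b l')) : Partner O Y l l' := by
  -- it is enough to treat r a < r b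
  have key : ∀ a ∈ Y, ∀ b ∈ Y, a ≠ l → a ≠ l' → b ≠ l → b ≠ l' → r a < r b →
      (O l a b ↔ O l' a b) := by
    intro a ha b hb h1 h2 h3 h4 hab
    have haU := hY ha
    have hbU := hY hb
    rcases B.lt_or hl haU (Ne.symm h1) with la | la
    · -- a later than l
      rcases B.lt_or hl' haU (Ne.symm h2) with la' | la'
      · rw [B.K1 h hl haU hbU la (by omega), B.K1 h hl' haU hbU la' (by omega)]
      · -- a between
        have hUa := hbet a ha la la'
        rw [B.K1 h hl haU hbU la (by omega), B.K2 h hl' haU hbU la' hab]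
        -- P a b false since a Up
        have hPba := hUa b hbU hab
        constructor
        · intro h5; exact absurd hPba (h.asym _ _ _ h5)
        · intro h5
          exfalso
          -- h5 : O p0 b l' ; need contradiction
          rcases B.lt_or hl' hbU (Ne.symm h4) with lb | lb
          · exact h.asym _ _ _ h5 (hL' b hbU lb)
          · have hUb := hbet b hb (by omega) lb
            exact h.asym _ _ _ h5 (hUb l' hl' lb)
    · -- a earlier than l
      rw [B.K2 h hl haU hbU la hab, B.K2 h hl' haU hbU (by omega) hab]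
      have hb0 : b ≠ p0 := B.ne_first haU hab
      rcases B.lt_or hl hbU (Ne.symm h3) with lb | lb
      · have h5 : O p0 l b := hL b hbU lb
        constructor
        · intro h6; exact absurd h5 (h.asym _ _ _ h6)
        · intro h6
          exfalso
          rcases B.lt_or hl' hbU (Ne.symm h4) with lb' | lb'
          · exact h.asym _ _ _ h6 (hL' b hbU lb')
          · have hUb := hbet b hb lb lb'
            exact h.asym _ _ _ h6 (hUb l' hl' lb')
      · exact hpar b hb hb0 lb
  intro a ha b hb h1 h2 h3 h4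
  by_cases hab : a = b
  · subst hab
    exact ⟨fun h5 => absurd rfl (h.ne23 h5), fun h5 => absurd rfl (h.ne23 h5)⟩
  rcases B.lt_or (hY ha) (hY hb) hab with h5 | h5
  · exact key a ha b hb h1 h2 h3 h4 h5
  · have h6 := key b hb a ha h3 h4 h1 h2 h5
    rw [← h.not_iff (Ne.symm h3) (Ne.symm hab) (Ne.symm h1),
      ← h.not_iff (Ne.symm h4) (Ne.symm hab) (Ne.symm h2), h6]

/-- Propagation of goodness along lower elements. -/
lemma propagate (h : Ax O) (B : Ord O U p0 r) {Y : Finset α} (hY : Y ⊆ U) :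
    ∀ (n : ℕ) (a c : α), a ∈ Y → c ∈ Y → r c ≤ r a + n → r a < r c → a ≠ p0 →
    Lo O p0 r U a → Lo O p0 r U c →
    (∀ b ∈ Y, r a < r b → r b < r c → Up O p0 r U b ∨ Lo O p0 r U b) →
    (∀ l ∈ Y, ∀ l' ∈ Y, r a ≤ r l → r l < r l' → r l' ≤ r c → Lo O p0 r U l → Lo O p0 r U l' →
      ∀ b ∈ Y, b ≠ p0 → r b < r l → (O p0 b l ↔ O p0 b l')) →
    (Good O Y a ↔ Good O Y c) := by
  intro n
  induction n with
  | zero =>
    intro a c _ _ h1 h2
    omega
  | succ n ih =>
    intro a c ha hc h1 h2 ha0 hLa hLc hHL hpar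
    by_cases hex : ∃ b ∈ Y, r a < r b ∧ r b < r c ∧ Lo O p0 r U b
    · obtain ⟨b, hb, hab, hbc, hLb⟩ := hex
      have hb0 : b ≠ p0 := B.ne_first (hY ha) hab
      have g1 : Good O Y a ↔ Good O Y b := by
        apply ih a b ha hb (by omega) hab ha0 hLa hLb
        · intro d hd h3 h4
          exact hHL d hd h3 (by omega)
        · intro l hl l' hl' h3 h4 h5
          exact hpar l hl l' hl' h3 h4 (by omega)
      have g2 : Good O Y b ↔ Good O Y c := by
        apply ih b c hb hc (by omega) hbc hb0 hLb hLc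
        · intro d hd h3 h4
          exact hHL d hd (by omega) h4
        · intro l hl l' hl' h3 h4 h5
          exact hpar l hl l' hl' (by omega) h4 h5
      exact g1.trans g2
    · push Not at hex
      have hc0 : c ≠ p0 := B.ne_first (hY ha) h2
      have hP : Partner O Y a c := by
        apply partnerLower h B hY (hY ha) (hY hc) h2 hLa hLc
        · intro b hb h3 h4
          rcases hHL b hb h3 h4 with h5 | h5
          · exact h5
          · exact absurd h5 (hex b hb h3 h4)
        · intro b hb hb0 h3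
          exact hpar a ha c hc (le_refl _) h2 (le_refl _) hLa hLc b hb hb0 h3
      have hne : a ≠ c := by rintro rfl; omega
      constructor
      · intro hg
        exact twin h hc hne hP hg (hull_of_lo h B hY (hY hc) hc0 (hLc.mono hY))
      · intro hg
        exact twin h ha hne.symm hP.symm hg (hull_of_lo h B hY (hY ha) ha0 (hLa.mono hY))

end general

/-- A sequence of deleted points `v i` with stretched orders `q i` of the rest, starting at
`w i`. -/
structure SeqB (O : α → α → α → Prop) (U : Finset α) (p0 : α) (r : α → ℕ) (n : ℕ)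
    (v w : ℕ → α) (q : ℕ → α → ℕ) : Prop where
  one : ∀ i < n, One O U p0 r (v i) (w i) (q i)
  vinj : ∀ i < n, ∀ j < n, v i = v j → i = j
  wv : ∀ i < n, ∀ j < n, w i ≠ v j
  mono : ∀ i < n, ∀ j < n, i < j → r (w i) < r (w j)
  bad : ∀ i < n, ¬ Good O U (w i)

section seq

variable {n : ℕ} {v w : ℕ → α} {q : ℕ → α → ℕ}

lemma SeqB.mono_le (S : SeqB O U p0 r n v w q) {i j : ℕ} (hi : i < n) (hj : j < n)
    (hij : i ≤ j) : r (w i) ≤ r (w j) := by
  rcases hij.lt_or_eq with h1 | h1
  · exact (S.mono i hi j hj h1).le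
  · rw [h1]

lemma SeqB.comp (S : SeqB O U p0 r n v w q) {m : ℕ} {s : ℕ → ℕ} (hs : ∀ i j, i < j → s i < s j)
    (hm : ∀ i < m, s i < n) :
    SeqB O U p0 r m (fun i => v (s i)) (fun i => w (s i)) (fun i => q (s i)) where
  one := fun i hi => S.one _ (hm i hi)
  vinj := fun i hi j hj hij => by
    have h1 := S.vinj _ (hm i hi) _ (hm j hj) hij
    rcases lt_trichotomy i j with h2 | h2 | h2
    · have := hs _ _ h2; omega
    · exact h2
    · have := hs _ _ h2; omega
  wv := fun i hi j hj => S.wv _ (hm i hi) _ (hm j hj)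
  mono := fun i hi j hj hij => S.mono _ (hm i hi) _ (hm j hj) (hs _ _ hij)
  bad := fun i hi => S.bad _ (hm i hi)

/-- choose an index in a window avoiding a small set -/
lemma SeqB.pick (S : SeqB O U p0 r n v w q) (m d : ℕ) (hm : m + d ≤ n) (F : Finset α)
    (hF : F.card < d) : ∃ k, m ≤ k ∧ k < m + d ∧ v k ∉ F := by
  have hcard : ((Finset.Ico m (m + d)).image v).card = d := by
    rw [Finset.card_image_of_injOn]
    · simp
    · intro i hi j hj hij
      simp only [Finset.coe_Ico, Set.mem_Ico] at hi hj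
      exact S.vinj i (by omega) j (by omega) hij
  obtain ⟨x, hx, hxF⟩ := exists_notMem_of_card (V := (Finset.Ico m (m + d)).image v) (B := F)
    (by rw [hcard]; exact hF)
  obtain ⟨k, hk, rfl⟩ := Finset.mem_image.1 hx
  rw [Finset.mem_Ico] at hk
  exact ⟨k, hk.1, hk.2, hxF⟩

lemma SeqB.w0 (S : SeqB O U p0 r n v w q) {i : ℕ} (hi : i < n) : w i ≠ p0 := (S.one i hi).w0

lemma SeqB.wU (S : SeqB O U p0 r n v w q) {i : ℕ} (hi : i < n) : w i ∈ U := (S.one i hi).wU

lemma SeqB.M1 (S : SeqB O U p0 r n v w q) {i j : ℕ} (hi : i < n) (hj : j < n)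
    (hij : i < j) : O p0 (w i) (w j) :=
  (S.one i hi).sgn (w j) (S.wU hj) (S.wv j hj i hi) (S.mono i hi j hj hij)

/-- the last step: if the `w i` in a window all propagate to `w a`, contradiction. -/
lemma SeqB.final (h : Ax O) (S : SeqB O U p0 r n v w q) (a : ℕ) (ha : a + 13 ≤ n)
    (hp : ∀ i, a < i → i < a + 13 → (Good O (U.erase (v i)) (w a) ↔
      Good O (U.erase (v i)) (w i))) : False := by
  apply S.bad a (by omega)
  apply good_of_many h U.card U (w a) ((Finset.Ico a (a + 13)).image v) (le_refl _)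
    (S.wU (by omega))
  · intro x hx
    obtain ⟨k, hk, rfl⟩ := Finset.mem_image.1 hx
    rw [Finset.mem_Ico] at hk
    exact (S.one k (by omega)).vU
  · intro hx
    obtain ⟨k, hk, hk2⟩ := Finset.mem_image.1 hx
    rw [Finset.mem_Ico] at hk
    exact S.wv a (by omega) k (by omega) hk2.symm
  · rw [Finset.card_image_of_injOn]
    · simp
    · intro i hi j hj hij
      simp only [Finset.coe_Ico, Set.mem_Ico] at hi hj
      exact S.vinj i (by omega) j (by omega) hij
  · intro x hx
    obtain ⟨k, hk, rfl⟩ := Finset.mem_image.1 hx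
    rw [Finset.mem_Ico] at hk
    rcases hk.1.lt_or_eq with h1 | h1
    · exact (hp k h1 hk.2).2 ⟨_, (S.one k (by omega)).ord⟩
    · subst h1
      exact ⟨_, (S.one a (by omega)).ord⟩

end seq

section leftseq

variable {n : ℕ} {v w z : ℕ → α} {q : ℕ → α → ℕ}

/-- left type data -/
structure SeqL (O : α → α → α → Prop) (U : Finset α) (p0 : α) (r : α → ℕ) (n : ℕ)
    (v w z : ℕ → α) (q : ℕ → α → ℕ) : Prop extends SeqB O U p0 r n v w q where
  left : ∀ i < n, LeftT O U p0 r (v i) (w i) (q i) (z i)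
  zv : ∀ i < n, ∀ j < n, z i ≠ v j

lemma SeqL.comp (S : SeqL O U p0 r n v w z q) {m : ℕ} {s : ℕ → ℕ}
    (hs : ∀ i j, i < j → s i < s j) (hm : ∀ i < m, s i < n) :
    SeqL O U p0 r m (fun i => v (s i)) (fun i => w (s i)) (fun i => z (s i))
      (fun i => q (s i)) where
  toSeqB := S.toSeqB.comp hs hm
  left := fun i hi => S.left _ (hm i hi)
  zv := fun i hi j hj => S.zv _ (hm i hi) _ (hm j hj)

lemma SeqL.M2 (h : Ax O) (B : Ord O U p0 r) (S : SeqL O U p0 r n v w z q) {i j : ℕ} (hi : i < n)
    (hj : j < n) (hij : i < j) : q j (w i) < q j p0 := by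
  have Cj := S.left j hj
  have hwi := S.wU hi
  rcases Cj.ord.lt_or (Cj.me hwi (S.wv i hi j hj)) (Cj.pm B) (S.w0 hi) with h1 | h1
  · exact h1
  · exfalso
    have h2 := Cj.late_up h B hwi (S.wv i hi j hj) h1 (S.mono i hi j hj hij) (w j)
      Cj.ord.mem (S.mono i hi j hj hij)
    exact h.asym _ _ _ (S.M1 hi hj hij) h2

lemma SeqL.lo_w (h : Ax O) (B : Ord O U p0 r) (S : SeqL O U p0 r n v w z q) {i : ℕ}
    (hi : i + 1 < n) : Lo O p0 r U (w i) := by
  intro c hc hic
  by_cases hcv : c = v i
  · have hj : i + 1 < n := hi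
    have Cj := S.left (i + 1) hj
    have hcv' : c ≠ v (i + 1) := by
      intro e
      have := S.vinj i (by omega) (i + 1) hj (hcv ▸ e)
      omega
    exact Cj.early_lo h B (S.wU (by omega)) (S.wv i (by omega) _ hj) (S.M2 h B (by omega) hj
      (by omega)) (S.mono _ (by omega) _ hj (by omega)) (S.M1 (by omega) hj (by omega)) c
      (Cj.me hc hcv') hic
  · exact (S.one i (by omega)).sgn c hc hcv hic

/-- early in one order iff early in the other -/
lemma SeqL.M3 (h : Ax O) (B : Ord O U p0 r) (S : SeqL O U p0 r n v w z q) {i j : ℕ} (hi : i < n)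
    (hj : j < n) {y : α} (hy : y ∈ U) (hy0 : y ≠ p0) (hyi : y ≠ v i)
    (hyj : y ≠ v j) (h1 : r y < r (w i)) (h1' : r y < r (w j)) (h2 : q i y < q i p0) :
    q j y < q j p0 := by
  have Ci := S.left i hi
  have Cj := S.left j hj
  rcases Cj.ord.lt_or (Cj.me hy hyj) (Cj.pm B) hy0 with h3 | h3
  · exact h3
  · exfalso
    have h4 := Cj.late_up h B hy hyj h3 h1' (z i) (Cj.me Ci.zU (S.zv i hi j hj))
      (lt_trans h1 Ci.zr)
    have h5 := Ci.early_below h B hy hyi h2
    exact h.asym _ _ _ h5 h4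

/-- not special implies upper or lower in `U - v j` -/
lemma SeqL.M4 (h : Ax O) (B : Ord O U p0 r) (S : SeqL O U p0 r n v w z q) {j : ℕ}
    (hj : j < n) {y : α} (hy : y ∈ U) (hy0 : y ≠ p0)
    (hyj : y ≠ v j) (h1 : r y < r (w j)) (h2 : ¬ (q j y < q j p0 ∧ O p0 (w j) y)) :
    Up O p0 r (U.erase (v j)) y ∨ Lo O p0 r (U.erase (v j)) y := by
  have Cj := S.left j hj
  rcases Cj.ord.lt_or (Cj.me hy hyj) (Cj.pm B) hy0 with h3 | h3
  · right
    apply Cj.early_lo h B hy hyj h3 h1
    have hne : w j ≠ y := by rintro e; rw [e] at h1; omega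
    exact h.nn hne (S.w0 hj) hy0 (fun h4 => h2 ⟨h3, h4⟩)
  · left
    exact Cj.late_up h B hy hyj h3 h1

lemma SeqL.HLU (h : Ax O) (B : Ord O U p0 r) (S : SeqL O U p0 r n v w z q) {j k : ℕ}
    (hj : j < n) (hk : k < n) (hjk : j ≠ k) {y : α} (hy : y ∈ U) (hy0 : y ≠ p0)
    (hyj : y ≠ v j) (hyk : y ≠ v k) (h1 : r y < r (w j)) (h1' : r y < r (w k))
    (h2 : ¬ (q j y < q j p0 ∧ O p0 (w j) y)) (h2' : ¬ (q k y < q k p0 ∧ O p0 (w k) y)) :
    Up O p0 r U y ∨ Lo O p0 r U y := by
  have Cj := S.left j hj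
  have Ck := S.left k hk
  have hv : ∀ c, c ≠ v j ∨ c ≠ v k := by
    intro c
    by_contra hc
    push Not at hc
    exact hjk (S.vinj j hj k hk (hc.1.symm.trans hc.2))
  have m1 := Cj.me (S.wU hj) (S.wv j hj j hj)
  have m2 := Ck.me (S.wU hj) (S.wv j hj k hk)
  rcases S.M4 h B hj hy hy0 hyj h1 h2 with a1 | a1 <;>
    rcases S.M4 h B hk hy hy0 hyk h1' h2' with a2 | a2
  · left
    intro c hc hyc
    rcases hv c with h3 | h3
    · exact a1 c (Cj.me hc h3) hyc
    · exact a2 c (Ck.me hc h3) hyc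
  · exact absurd (a2 _ m2 h1) (h.asym _ _ _ (a1 _ m1 h1))
  · exact absurd (a1 _ m1 h1) (h.asym _ _ _ (a2 _ m2 h1))
  · right
    intro c hc hyc
    rcases hv c with h3 | h3
    · exact a1 c (Cj.me hc h3) hyc
    · exact a2 c (Ck.me hc h3) hyc

/-- a special element `y0` -/
structure Special (O : α → α → α → Prop) (U : Finset α) (p0 : α) (r : α → ℕ) (n : ℕ)
    (v w : ℕ → α) (q : ℕ → α → ℕ) (y0 : α) : Prop where
  yU : y0 ∈ U
  y00 : y0 ≠ p0
  yr : ∀ k < n, r y0 < r (w k)
  yv : ∀ k < n, y0 ≠ v k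
  ye : ∀ k < n, q k y0 < q k p0
  yw : ∀ k < n, O p0 (w k) y0

lemma SeqL.N2 (h : Ax O) (B : Ord O U p0 r) (S : SeqL O U p0 r n v w z q) {y0 : α}
    (Y : Special O U p0 r n v w q y0) {i k : ℕ} (hi : i < n) (hk : k < n) (hik : i < k)
    {b : α} (hb : b ∈ U) (hbi : b ≠ v i) (hbk : b ≠ v k) (h1 : r (w i) < r b)
    (h2 : r b < r (w k)) : ¬ (q k b < q k p0 ∧ O p0 (w k) b) := by
  rintro ⟨h3, h4⟩
  have Ci := S.left i hi
  have Ck := S.left k hk
  have hyi := Y.yr i hi
  have hyb : r y0 < r b := by omega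
  have hbne : y0 ≠ b := by rintro rfl; omega
  have hb0 : b ≠ p0 := B.ne_first (S.wU hi) h1
  -- e1 : O p0 b y0
  have e1 : O p0 b y0 := by
    have h5 := Ck.L3a' h B Y.yU (Y.yv k hk) (Y.ye k hk) hb hbk hyb h3 h2
    apply h.nn hbne Y.y00 hb0
    intro h6
    exact h.asym _ _ _ (Y.yw k hk) (h5.1 h6)
  have e2 : q i b < q i y0 := by
    rcases Ci.ord.lt_or (Ci.me hb hbi) (Ci.me Y.yU (Y.yv i hi)) hbne.symm with h5 | h5
    · exact h5
    · exact absurd (Ci.L3b h B Y.yU (Y.yv i hi) (Y.ye i hi) hb hbi h1 h5) (h.asym _ _ _ e1)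
  have e3 : O p0 y0 (z k) := Ck.early_below h B Y.yU (Y.yv k hk) (Y.ye k hk)
  have e3' : O p0 b (z k) := Ck.early_below h B hb hbk h3
  have zki := S.zv k hk i hi
  have hzr := Ck.zr
  have e4 : q i y0 < q i (z k) := by
    have hne : y0 ≠ z k := h.ne23 e3
    rcases Ci.ord.lt_or (Ci.me Y.yU (Y.yv i hi)) (Ci.me Ck.zU zki) hne with h5 | h5
    · exact h5
    · exfalso
      have h6 := Ci.L3a h B Y.yU (Y.yv i hi) (Y.ye i hi) Ck.zU zki h5
      exact h.asym _ _ _ (Y.yw i hi) (h6.1 e3)
  have wki := S.wv k hk i hi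
  have hyei := Y.ye i hi
  have e5 : q i (w k) < q i b := by
    have hne : w k ≠ b := h.ne23 h4
    rcases Ci.ord.lt_or (Ci.me (S.wU hk) wki) (Ci.me hb hbi) hne with h5 | h5
    · exact h5
    · exfalso
      have h7 := Ci.ord.le_first (Ci.me hb hbi)
      have h6 := Ord.G h Ci.ord (Ci.pm B) (Ci.me hb hbi) Ci.ord.mem (Ci.me (S.wU hk) wki)
        (by omega) (Ci.wp B) h5 (by omega)
      exact h.asym _ _ _ h4 (h6.2 (S.M1 hi hk hik))
  have e6 := Ord.C2 h B Ci.sub Ci.ord (Ci.me hb hbi) (Ci.me Ck.zU zki) (Ci.me (S.wU hk) wki)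
    (by omega) (by omega) h1 e5 h2
  exact h.asym _ _ _ Ck.wz (e6.1 e3')

lemma SeqL.N3 (h : Ax O) (B : Ord O U p0 r) (S : SeqL O U p0 r n v w z q) {y0 : α}
    (Y : Special O U p0 r n v w q y0) {m : ℕ} (hm : m + 3 ≤ n) (h1m : 1 < m)
    {b : α} (hb : b ∈ U) (h1 : r (w 1) < r b)
    (h2 : r b < r (w m)) : Up O p0 r U b ∨ Lo O p0 r U b := by
  have hb0 : b ≠ p0 := B.ne_first (S.wU (by omega : 1 < n)) h1
  obtain ⟨i, hi0, hi2, hiv⟩ := S.pick 0 2 (by omega) {b} (by simp)
  obtain ⟨k, hk0, hk2, hkv⟩ := S.pick m 3 (by omega) {b} (by simp)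
  obtain ⟨l, hl0, hl2, hlv⟩ := S.pick m 3 (by omega) {b, v k}
    (lt_of_le_of_lt Finset.card_le_two (by omega))
  simp only [Finset.mem_singleton, Finset.mem_insert, not_or] at hiv hkv hlv
  have hkl : k ≠ l := by rintro rfl; exact hlv.2 rfl
  have s1 : r (w i) ≤ r (w 1) := S.mono_le (by omega) (by omega) (by omega)
  have s2 : r (w m) ≤ r (w k) := S.mono_le (by omega) (by omega) (by omega)
  have s3 : r (w m) ≤ r (w l) := S.mono_le (by omega) (by omega) (by omega)
  apply S.HLU h B (by omega) (by omega) hkl hb hb0 (Ne.symm hkv) (Ne.symm hlv.1) (by omega)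
    (by omega)
  · exact S.N2 h B Y (by omega) (by omega) (by omega) hb (Ne.symm hiv) (Ne.symm hkv) (by omega)
      (by omega)
  · exact S.N2 h B Y (by omega) (by omega) (by omega) hb (Ne.symm hiv) (Ne.symm hlv.1) (by omega)
      (by omega)

lemma SeqL.N4 (h : Ax O) (B : Ord O U p0 r) (S : SeqL O U p0 r n v w z q) {y0 : α}
    (Y : Special O U p0 r n v w q y0) {m : ℕ} (hm : m + 4 ≤ n) (h1m : 1 < m)
    {l l' b : α} (hl : l ∈ U) (hl' : l' ∈ U) (hb : b ∈ U) (h1 : r (w 1) ≤ r l)
    (h2 : r l < r l') (h3 : r l' ≤ r (w m)) (hL : Lo O p0 r U l) (hL' : Lo O p0 r U l')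
    (hb0 : b ≠ p0) (hbl : r b < r l) : O p0 b l ↔ O p0 b l' := by
  have hll := hL l' hl' h2
  constructor
  · intro h4
    exact B.trans h hb hl hl' h4 hll
  · intro h4
    by_contra h5
    have hne : b ≠ l := by rintro rfl; omega
    rcases lt_trichotomy (r (w 1)) (r b) with h6 | h6 | h6
    · rcases S.N3 h B Y (by omega) h1m hb h6 (by omega) with h7 | h7
      · exact h.asym _ _ _ h4 (h7 l' hl' (by omega))
      · exact h5 (h7 l hl hbl)
    · have := B.inj _ (S.wU (by omega)) _ hb h6
      subst this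
      exact h5 (S.lo_w h B (by omega) l hl hbl)
    · obtain ⟨k, hk0, hk2, hkv⟩ := S.pick m 4 (by omega) {b, l, l'}
        (lt_of_le_of_lt Finset.card_le_three (by omega))
      simp only [Finset.mem_singleton, Finset.mem_insert, not_or] at hkv
      obtain ⟨k1, k2, k3⟩ := hkv
      have hk : k < n := by omega
      have Ck := S.left k hk
      have s1 : r (w m) ≤ r (w k) := S.mono_le (by omega) (by omega) (by omega)
      have hbw : r b < r (w k) := by omega
      rcases Ck.ord.lt_or (Ck.me hb (Ne.symm k1)) (Ck.pm B) hb0 with h7 | h7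
      · have hne2 : b ≠ w k := by intro e; rw [e] at hbw; omega
        by_cases h8 : O p0 b (w k)
        · exact h5 (Ck.early_lo h B hb (Ne.symm k1) h7 hbw h8 l (Ck.me hl (Ne.symm k2)) hbl)
        · have h9 : O p0 (w k) b := h.nn hne2 hb0 (S.w0 hk) h8
          have h10 : O p0 (w k) l' := B.trans h (S.wU hk) hb hl' h9 h4
          have h11 : r l' < r (w k) ∨ r l' = r (w k) := by omega
          rcases h11 with h11 | h11
          · exact h.asym _ _ _ h10 (hL' (w k) (S.wU hk) h11)
          · have := B.inj _ hl' _ (S.wU hk) h11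
            exact h.ne23 h10 this.symm
      · exact h.asym _ _ _ h4 (Ck.late_up h B hb (Ne.symm k1) h7 hbw l' (Ck.me hl' (Ne.symm k3))
          (by omega))

/-- left type with a special element is impossible (18 indices) -/
lemma SeqL.no_special (h : Ax O) (B : Ord O U p0 r) (S : SeqL O U p0 r n v w z q) {y0 : α}
    (Y : Special O U p0 r n v w q y0) (hn : 19 ≤ n) : False := by
  apply S.toSeqB.final h 2 (by omega)
  intro i hi hi'
  have hY : U.erase (v i) ⊆ U := Finset.erase_subset _ _
  have hin : i < n := by omega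
  have m1 : w 2 ∈ U.erase (v i) := Finset.mem_erase.2 ⟨S.wv 2 (by omega) i hin, S.wU (by omega)⟩
  have m2 : w i ∈ U.erase (v i) := Finset.mem_erase.2 ⟨S.wv i hin i hin, S.wU hin⟩
  have s1 : r (w 1) < r (w 2) := S.mono 1 (by omega) 2 (by omega) (by omega)
  have s2 : r (w 2) < r (w i) := S.mono 2 (by omega) i hin hi
  have s3 : r (w i) ≤ r (w 15) := S.mono_le hin (by omega) (by omega)
  apply propagate h B hY (r (w i)) (w 2) (w i) m1 m2 (by omega) s2 (S.w0 (by omega))
    (S.lo_w h B (by omega)) (S.lo_w h B (by omega))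
  · intro b hb hb1 hb2
    exact S.N3 h B Y (m := 15) (by omega) (by omega) (hY hb) (by omega) (by omega)
  · intro l hl l' hl' h1 h2 h3 hL hL' b hb hb0 hbl
    exact S.N4 h B Y (m := 15) (by omega) (by omega) (hY hl) (hY hl') (hY hb) (by omega) h2
      (by omega) hL hL' hb0 hbl

/-- left type is impossible -/
theorem SeqL.impossible (h : Ax O) (B : Ord O U p0 r) (S : SeqL O U p0 r 24 v w z q) :
    False := by
  by_cases hsp : ∃ y ∈ U, y ≠ p0 ∧ r y < r (w 0) ∧ ∃ j, 21 ≤ j ∧ j < 24 ∧ y ≠ v j ∧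
      q j y < q j p0 ∧ O p0 (w j) y
  · obtain ⟨y, hy, hy0, hyr, j, hj1, hj2, hyj, hye, hyw⟩ := hsp
    -- y is special for all k < 21 with y ≠ v k
    have hyr' : ∀ k < 24, r y < r (w k) := by
      intro k hk
      exact lt_of_lt_of_le hyr (S.mono_le (by omega) hk (by omega))
    have hall : ∀ k < 21, y ≠ v k → q k y < q k p0 ∧ O p0 (w k) y := by
      intro k hk hyk
      refine ⟨S.M3 h B (i := j) (j := k) hj2 (by omega) hy hy0 hyj hyk (hyr' j hj2)
        (hyr' k (by omega)) hye, ?_⟩
      exact B.trans h (S.wU (by omega)) (S.wU hj2) hy (S.M1 (by omega) hj2 (by omega)) hyw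
    by_cases hv : ∃ k < 21, y = v k
    · obtain ⟨k0, hk0, hk0y⟩ := hv
      let s : ℕ → ℕ := fun i => if i < k0 then i else i + 1
      have hs : ∀ i j, i < j → s i < s j := by
        intro i j hij
        simp only [s]
        split_ifs <;> omega
      have hs1 : ∀ i < 20, s i < 21 := by
        intro i hi
        simp only [s]
        split_ifs <;> omega
      have hs2 : ∀ i, s i ≠ k0 := by
        intro i
        simp only [s]
        split_ifs <;> omega
      have hs3 : ∀ i < 20, y ≠ v (s i) := by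
        intro i hi e
        have := S.vinj k0 (by omega) (s i) (by have := hs1 i hi; omega) (hk0y ▸ e)
        exact hs2 i this.symm
      have S' := S.comp (m := 20) hs (fun i hi => by have := hs1 i hi; omega)
      apply S'.no_special h B (y0 := y) _ (by omega)
      refine ⟨hy, hy0, ?_, ?_, ?_, ?_⟩
      · intro k hk
        exact hyr' _ (by have := hs1 k hk; omega)
      · intro k hk
        exact hs3 k hk
      · intro k hk
        exact (hall _ (hs1 k hk) (hs3 k hk)).1
      · intro k hk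
        exact (hall _ (hs1 k hk) (hs3 k hk)).2
    · push Not at hv
      have S' := S.comp (m := 21) (s := fun i => i) (fun i j hij => hij) (fun i hi => by omega)
      apply S'.no_special h B (y0 := y) _ (by omega)
      refine ⟨hy, hy0, ?_, ?_, ?_, ?_⟩
      · intro k hk
        exact hyr' _ (by omega)
      · intro k hk
        exact hv k hk
      · intro k hk
        exact (hall _ hk (hv k hk)).1
      · intro k hk
        exact (hall _ hk (hv k hk)).2
  · push Not at hsp
    apply S.bad 0 (by omega)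
    apply pureLeft h B (S.wU (by omega)) (S.w0 (by omega)) (S.lo_w h B (by omega))
    intro y hy hy0 hyr
    obtain ⟨k, hk0, hk2, hkv⟩ := S.toSeqB.pick 21 3 (by omega) {y} (by simp)
    obtain ⟨l, hl0, hl2, hlv⟩ := S.toSeqB.pick 21 3 (by omega) {y, v k}
      (lt_of_le_of_lt Finset.card_le_two (by omega))
    simp only [Finset.mem_singleton, Finset.mem_insert, not_or] at hkv hlv
    have hkl : k ≠ l := by rintro rfl; exact hlv.2 rfl
    have s1 : r (w 0) ≤ r (w k) := S.mono_le (by omega) (by omega) (by omega)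
    have s2 : r (w 0) ≤ r (w l) := S.mono_le (by omega) (by omega) (by omega)
    apply S.HLU h B (by omega) (by omega) hkl hy hy0 (Ne.symm hkv) (Ne.symm hlv.1) (by omega)
      (by omega)
    · rintro ⟨h1, h2⟩
      exact hsp y hy hy0 hyr k hk0 (by omega) (Ne.symm hkv) h1 h2
    · rintro ⟨h1, h2⟩
      exact hsp y hy hy0 hyr l hl0 (by omega) (Ne.symm hlv.1) h1 h2

end leftseq

end Pool.Agent.H53.Str
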