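import Pool.Agent.H53.StrLeft

/-! The right type sequences. -/

namespace Pool.Agent.H53.Str

set_option linter.unusedSectionVars false

variable {α : Type*} [DecidableEq α] {O : α → α → α → Prop}
variable {U : Finset α} {p0 : α} {r : α → ℕ}

section rightseq

variable {n : ℕ} {v w : ℕ → α} {q : ℕ → α → ℕ}

/-- right type data -/
structure SeqR (O : α → α → α → Prop) (U : Finset α) (p0 : α) (r : α → ℕ) (n : ℕ)
    (v w : ℕ → α) (q : ℕ → α → ℕ) : Prop extends SeqB O U p0 r n v w q where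
  right : ∀ i < n, ∀ c ∈ U, c ≠ v i → r (w i) < r c → q i c < q i p0

lemma SeqR.R1 (h : Ax O) (B : Ord O U p0 r) (S : SeqR O U p0 r n v w q) {i : ℕ} (hi : i < n)
    {b c : α} (hb : b ∈ U) (hc : c ∈ U) (hbv : b ≠ v i) (hcv : c ≠ v i) (h1 : r (w i) < r b)
    (h2 : r (w i) < r c) (h3 : q i b < q i c) : O p0 b c := by
  have C := S.one i hi
  have h4 := C.ord.le_first (C.me hb hbv)
  have := Ord.G h C.ord (C.pm B) (C.me hb hbv) C.ord.mem (C.me hc hcv)
    (S.right i hi b hb hbv h1) (C.wp B) h3 (by omega)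
  exact this.2 (C.sgn c hc hcv h2)

lemma SeqR.R1' (h : Ax O) (B : Ord O U p0 r) (S : SeqR O U p0 r n v w q) {i : ℕ} (hi : i < n)
    {b : α} (hb : b ∈ U) (hbv : b ≠ v i) (h1 : r (w i) < r b) :
    Up O p0 r (U.erase (v i)) b ∨ Lo O p0 r (U.erase (v i)) b := by
  have C := S.one i hi
  have hb0 : b ≠ p0 := B.ne_first C.wU h1
  by_contra hcon
  rw [not_or] at hcon
  obtain ⟨hU, hL⟩ := hcon
  unfold Up at hU
  unfold Lo at hL
  push Not at hU hL
  obtain ⟨c, hc, hbc, hc1⟩ := hU
  obtain ⟨c', hc', hbc', hc1'⟩ := hL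
  have hcm := Finset.mem_erase.1 hc
  have hcm' := Finset.mem_erase.1 hc'
  have hc0 : c ≠ p0 := B.ne_first hb hbc
  have hc0' : c' ≠ p0 := B.ne_first hb hbc'
  have ne1 : c ≠ b := by rintro rfl; omega
  have ne2 : c' ≠ b := by rintro rfl; omega
  have e1 : O p0 b c := h.nn ne1 hc0 hb0 hc1
  have e2 : O p0 c' b := h.nn ne2.symm hb0 hc0' hc1'
  have q1 : q i b < q i c := by
    rcases C.ord.lt_or (C.me hb hbv) hc ne1.symm with h5 | h5
    · exact h5
    · exact absurd (S.R1 h B hi hcm.2 hb hcm.1 hbv (by omega) h1 h5) (h.asym _ _ _ e1)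
  have q2 : q i c' < q i b := by
    rcases C.ord.lt_or hc' (C.me hb hbv) ne2 with h5 | h5
    · exact h5
    · exact absurd (S.R1 h B hi hb hcm'.2 hbv hcm'.1 h1 (by omega) h5) (h.asym _ _ _ e2)
  have e3 := Ord.C2 h B C.sub C.ord (C.me hb hbv) hc hc' q1 hbc h1 q2 hbc'
  have e4 : O p0 c' c := B.trans h hcm'.2 hb hcm.2 e2 e1
  exact h.asym _ _ _ e4 (e3.1 e1)

lemma SeqR.R2 (h : Ax O) (B : Ord O U p0 r) (S : SeqR O U p0 r n v w q) (hn : 4 ≤ n)
    {b : α} (hb : b ∈ U) (h1 : r (w 3) < r b) :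
    Up O p0 r U b ∨ Lo O p0 r U b := by
  have hb0 : b ≠ p0 := B.ne_first (S.wU (by omega)) h1
  by_contra hcon
  rw [not_or] at hcon
  obtain ⟨hU, hL⟩ := hcon
  unfold Up at hU
  unfold Lo at hL
  push Not at hU hL
  obtain ⟨c, hc, hbc, hc1⟩ := hU
  obtain ⟨c', hc', hbc', hc1'⟩ := hL
  obtain ⟨i, hi0, hi2, hiv⟩ := S.toSeqB.pick 0 4 (by omega) {b, c, c'}
        (lt_of_le_of_lt Finset.card_le_three (by omega))
  simp only [Finset.mem_singleton, Finset.mem_insert, not_or] at hiv
  obtain ⟨k1, k2, k3⟩ := hiv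
  have s1 : r (w i) ≤ r (w 3) := S.mono_le (by omega) (by omega) (by omega)
  have C := S.one i (by omega)
  rcases S.R1' h B (by omega : i < n) hb (Ne.symm k1) (by omega) with h2 | h2
  · exact hc1 (h2 c (C.me hc (Ne.symm k2)) hbc)
  · exact hc1' (h2 c' (C.me hc' (Ne.symm k3)) hbc')

lemma SeqR.lo_w (h : Ax O) (B : Ord O U p0 r) (S : SeqR O U p0 r n v w q) {j : ℕ} (hj : 4 ≤ j)
    (hjn : j + 1 < n) : Lo O p0 r U (w j) := by
  rcases S.R2 h B (by omega) (S.wU (by omega : j < n))
    (S.mono 3 (by omega) j (by omega) (by omega)) with h1 | h1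
  · exact absurd (h1 (w (j+1)) (S.wU hjn) (S.mono _ (by omega) _ hjn (by omega)))
      (h.asym _ _ _ (S.M1 (by omega) hjn (by omega)))
  · exact h1

lemma SeqR.R4 (h : Ax O) (B : Ord O U p0 r) (S : SeqR O U p0 r n v w q) {j : ℕ} (hj : j < n)
    {b c : α} (hb : b ∈ U) (hbv : b ≠ v j) (hbr : r b < r (w j)) (hwb : O p0 (w j) b)
    (hc : c ∈ U) (hcv : c ≠ v j) (hcr : r (w j) < r c) (hbc : O p0 b c) :
    q j b < q j p0 ∧ ∀ x ∈ U, x ≠ v j → r x < r b → q j b < q j x := by
  have C := S.one j hj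
  have hce := S.right j hj c hc hcv hcr
  have hne : b ≠ c := h.ne23 hbc
  have hq : q j b < q j c := by
    rcases C.ord.lt_or (C.me hb hbv) (C.me hc hcv) hne with h1 | h1
    · exact h1
    · exfalso
      have h4 := C.ord.le_first (C.me hc hcv)
      have := Ord.G h C.ord (C.pm B) (C.me hc hcv) C.ord.mem (C.me hb hbv) hce (C.wp B) h1
        (by omega)
      exact h.asym _ _ _ hbc (this.2 hwb)
  refine ⟨by omega, ?_⟩
  intro x hx hxv hxb
  have hne2 : b ≠ x := by rintro rfl; omega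
  rcases C.ord.lt_or (C.me hb hbv) (C.me hx hxv) hne2 with h1 | h1
  · exact h1
  · exfalso
    have := Ord.C1 h B C.sub C.ord (C.me hb hbv) (C.me hc hcv) (C.me hx hxv) hq (by omega)
      hbr h1 hxb
    exact h.asym _ _ _ (C.sgn c hc hcv hcr) (this.1 hbc)

lemma SeqR.R5 (h : Ax O) (B : Ord O U p0 r) (S : SeqR O U p0 r n v w q) {j : ℕ} (hj : j < n)
    {b m : α} (hb : b ∈ U) (hbv : b ≠ v j) (hwb : O p0 b (w j))
    (hm : m ∈ U) (hmv : m ≠ v j) (hbm : r b < r m) (hmr : r m < r (w j)) (hmb : O p0 m b) :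
    q j b < q j p0 ∧ ∀ x ∈ U, x ≠ v j → r x < r b → q j b < q j x := by
  have C := S.one j hj
  have hne : b ≠ m := (h.ne23 hmb).symm
  have hb0 : b ≠ p0 := (h.ne13 hmb).symm
  have hm0 : m ≠ p0 := (h.ne12 hmb).symm
  have hmw : O p0 m (w j) := B.trans h hm hb C.wU hmb hwb
  have hq : q j b < q j m := by
    rcases C.ord.lt_or (C.me hb hbv) (C.me hm hmv) hne with h1 | h1
    · exact h1
    · exfalso
      have h4 := C.ord.le_first (C.me hm hmv)
      rcases C.ord.lt_or (C.me hm hmv) (C.pm B) hm0 with h2 | h2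
      · have := Ord.G h C.ord (C.pm B) (C.me hm hmv) C.ord.mem (C.me hb hbv) h2 (C.wp B) h1
          (by omega)
        exact h.asym _ _ _ hwb (this.1 hmb)
      · have := Ord.V h B C.sub (C.pm B) C.ord (C.me hb hbv) (C.me hm hmv) (by omega) h2
          (by omega) hbm
        exact h.asym _ _ _ hmw (this.1 hmb)
  have hno : ∀ x ∈ U, x ≠ v j → r x < r b → q j b < q j x := by
    intro x hx hxv hxb
    have hne2 : b ≠ x := by rintro rfl; omega
    rcases C.ord.lt_or (C.me hb hbv) (C.me hx hxv) hne2 with h1 | h1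
    · exact h1
    · exfalso
      have := Ord.C1 h B C.sub C.ord (C.me hb hbv) (C.me hm hmv) (C.me hx hxv) hq (by omega)
        (by omega) h1 hxb
      exact h.asym _ _ _ hmb (this.2 hmw)
  exact ⟨hno p0 B.mem C.v0.symm (B.first b hb hb0), hno⟩

/-- gap `k` is broken -/
def Brk (O : α → α → α → Prop) (U : Finset α) (p0 : α) (r : α → ℕ) (w : ℕ → α) (k : ℕ) : Prop :=
  ∃ b ∈ U, r b < r (w k) ∧ O p0 (w k) b ∧ O p0 b (w (k + 1))

lemma SeqR.brk_pos (h : Ax O) (B : Ord O U p0 r) (S : SeqR O U p0 r n v w q) {k : ℕ} (hk : 4 ≤ k)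
    (hkn : k + 1 < n) {b : α} (hb : b ∈ U) (h1 : r b < r (w k)) (h2 : O p0 (w k) b)
    (h3 : O p0 b (w (k + 1))) : r b < r (w 3) := by
  by_contra hcon
  push Not at hcon
  rcases hcon.lt_or_eq with h4 | h4
  · rcases S.R2 h B (by omega) hb h4 with h5 | h5
    · exact h.asym _ _ _ h3 (h5 _ (S.wU hkn)
        (lt_trans h1 (S.mono _ (by omega) _ hkn (by omega))))
    · exact h.asym _ _ _ h2 (h5 _ (S.wU (by omega)) h1)
  · have := B.inj _ (S.wU (by omega)) _ hb h4
    subst this
    exact h.asym _ _ _ h2 (S.M1 (by omega) (by omega) (by omega))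

lemma SeqR.R6 (h : Ax O) (B : Ord O U p0 r) (S : SeqR O U p0 r n v w q) {k k' : ℕ} (hk : 6 ≤ k)
    (hkk : k < k') (hkn : k' + 4 ≤ n) (H : Brk O U p0 r w k) (H' : Brk O U p0 r w k') :
    False := by
  obtain ⟨b, hb, b1, b2, b3⟩ := H
  obtain ⟨b', hb', b1', b2', b3'⟩ := H'
  have p1 := S.brk_pos h B (by omega) (by omega) hb b1 b2 b3
  have p2 := S.brk_pos h B (by omega) (by omega) hb' b1' b2' b3'
  have Mw : ∀ i j, i < n → j < n → i ≤ j → ∀ x ∈ U, O p0 (w j) x → O p0 (w i) x := by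
    intro i j hi hj hij x hx hjx
    rcases hij.lt_or_eq with h1 | h1
    · exact B.trans h (S.wU hi) (S.wU hj) hx (S.M1 hi hj h1) hjx
    · rw [h1]; exact hjx
  have Mw' : ∀ i j, i < n → j < n → i ≤ j → ∀ x ∈ U, O p0 x (w i) → O p0 x (w j) := by
    intro i j hi hj hij x hx hjx
    rcases hij.lt_or_eq with h1 | h1
    · exact B.trans h hx (S.wU hi) (S.wU hj) hjx (S.M1 hi hj h1)
    · rw [← h1]; exact hjx
  have hbb : O p0 b b' := by
    apply B.trans h hb (S.wU (by omega : k' < n)) hb' _ b2'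
    exact Mw' (k+1) k' (by omega) (by omega) (by omega) b hb b3
  have hne : b ≠ b' := h.ne23 hbb
  obtain ⟨j, hj0, hj2, hjv⟩ := S.toSeqB.pick 4 3 (by omega) {b, b'}
      (lt_of_le_of_lt Finset.card_le_two (by omega))
  simp only [Finset.mem_singleton, Finset.mem_insert, not_or] at hjv
  obtain ⟨jv1, jv2⟩ := hjv
  have hjn : j < n := by omega
  have C := S.one j hjn
  have s3 : r (w 3) < r (w j) := S.mono 3 (by omega) j hjn (by omega)
  have wjb : O p0 (w j) b := Mw j k hjn (by omega) (by omega) b hb b2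
  have wjb' : O p0 (w j) b' := Mw j k' hjn (by omega) (by omega) b' hb' b2'
  have R := S.R4 h B hjn hb (Ne.symm jv1) (by omega) wjb (S.wU (by omega : k + 1 < n))
    (S.wv _ (by omega) _ hjn) (S.mono _ hjn _ (by omega) (by omega)) b3
  have R' := S.R4 h B hjn hb' (Ne.symm jv2) (by omega) wjb' (S.wU (by omega : k' + 1 < n))
    (S.wv _ (by omega) _ hjn) (S.mono _ hjn _ (by omega) (by omega)) b3'
  rcases B.lt_or hb hb' hne with h1 | h1
  · have h2 := R'.2 b hb (Ne.symm jv1) h1
    have h4 := C.ord.le_first (C.me hb' (Ne.symm jv2))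
    have := Ord.G h C.ord (C.pm B) (C.me hb' (Ne.symm jv2)) C.ord.mem (C.me hb (Ne.symm jv1))
      R'.1 (C.wp B) h2 (by omega)
    exact h.asym _ _ _ hbb (this.2 wjb)
  · obtain ⟨l, hl0, hl2, hlv⟩ := S.toSeqB.pick (k' + 1) 3 (by omega) {b, b'}
      (lt_of_le_of_lt Finset.card_le_two (by omega))
    simp only [Finset.mem_singleton, Finset.mem_insert, not_or] at hlv
    obtain ⟨lv1, lv2⟩ := hlv
    have hln : l < n := by omega
    have D := S.one l hln
    have bwl : O p0 b (w l) := Mw' (k+1) l (by omega) hln (by omega) b hb b3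
    have bwl' : O p0 b' (w l) := Mw' (k'+1) l (by omega) hln (by omega) b' hb' b3'
    have Q := S.R5 h B hln hb (Ne.symm lv1) bwl (S.wU (by omega : k < n))
      (S.wv _ (by omega) _ hln) b1 (S.mono _ (by omega) _ hln (by omega)) b2
    have h2 := Q.2 b' hb' (Ne.symm lv2) h1
    have h4 := D.ord.le_first (D.me hb (Ne.symm lv1))
    have := Ord.G h D.ord (D.pm B) (D.me hb (Ne.symm lv1)) D.ord.mem (D.me hb' (Ne.symm lv2))
      Q.1 (D.wp B) h2 (by omega)
    exact h.asym _ _ _ bwl' (this.1 hbb)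

/-- right type is impossible -/
theorem SeqR.impossible (h : Ax O) (B : Ord O U p0 r) (S : SeqR O U p0 r 36 v w q) :
    False := by
  have hrun : ∃ a, 6 ≤ a ∧ a + 12 ≤ 30 ∧ ∀ k, a ≤ k → k < a + 12 → ¬ Brk O U p0 r w k := by
    by_cases h1 : ∃ k, 6 ≤ k ∧ k < 18 ∧ Brk O U p0 r w k
    · obtain ⟨k, hk1, hk2, hk3⟩ := h1
      refine ⟨18, by omega, by omega, ?_⟩
      intro k' hk1' hk2' hk3'
      exact S.R6 h B hk1 (by omega) (by omega) hk3 hk3'
    · push Not at h1
      exact ⟨6, by omega, by omega, fun k hk1 hk2 => h1 k hk1 (by omega)⟩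
  obtain ⟨a, ha1, ha2, hnb⟩ := hrun
  apply S.toSeqB.final h a (by omega)
  intro i hi hi'
  have hY : U.erase (v i) ⊆ U := Finset.erase_subset _ _
  have hin : i < 36 := by omega
  have m1 : w a ∈ U.erase (v i) := Finset.mem_erase.2 ⟨S.wv a (by omega) i hin, S.wU (by omega)⟩
  have m2 : w i ∈ U.erase (v i) := Finset.mem_erase.2 ⟨S.wv i hin i hin, S.wU hin⟩
  have s1 : r (w 3) < r (w a) := S.mono 3 (by omega) a (by omega) (by omega)
  have s2 : r (w a) < r (w i) := S.mono a (by omega) i hin hi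
  have s3 : r (w i) ≤ r (w (a + 12)) := S.mono_le hin (by omega) (by omega)
  have hLa := S.lo_w h B (by omega : 4 ≤ a) (by omega)
  apply propagate h B hY (r (w i)) (w a) (w i) m1 m2 (by omega) s2 (S.w0 (by omega))
    hLa (S.lo_w h B (by omega) (by omega))
  · intro b hb hb1 hb2
    exact S.R2 h B (by omega) (hY hb) (by omega)
  · intro l hl l' hl' h1 h2 h3 hL hL' b hb hb0 hbl
    have hlU := hY hl
    have hlU' := hY hl'
    have hbU := hY hb
    have hll := hL l' hlU' h2
    constructor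
    · intro h4
      exact B.trans h hbU hlU hlU' h4 hll
    · intro h4
      by_contra h5
      have hne : b ≠ l := by rintro rfl; omega
      have hl0 : l ≠ p0 := by
        rintro rfl
        have := B.le_first hbU
        omega
      have h6 : O p0 l b := h.nn hne hb0 hl0 h5
      have hpos : r b ≤ r (w 3) := by
        by_contra h7
        push Not at h7
        rcases S.R2 h B (by omega) hbU h7 with h8 | h8
        · exact h.asym _ _ _ h4 (h8 l' hlU' (by omega))
        · exact h5 (h8 l hlU hbl)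
      have h7 : O p0 (w a) b := by
        rcases h1.lt_or_eq with h8 | h8
        · exact B.trans h (S.wU (by omega)) hlU hbU (hLa l hlU h8) h6
        · have := B.inj _ (S.wU (by omega)) _ hlU h8
          rw [this]; exact h6
      have h8 : O p0 b (w (a + 12)) := by
        have h9 : r l' ≤ r (w (a + 12)) := by omega
        rcases h9.lt_or_eq with h10 | h10
        · exact B.trans h hbU hlU' (S.wU (by omega)) h4 (hL' _ (S.wU (by omega)) h10)
        · have := B.inj _ hlU' _ (S.wU (by omega)) h10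
          rw [← this]; exact h4
      have hind : ∀ d, d ≤ 12 → O p0 (w (a + d)) b := by
        intro d
        induction d with
        | zero => intro _; exact h7
        | succ d ih =>
          intro hd
          have h9 := ih (by omega)
          have h10 := hnb (a + d) (by omega) (by omega)
          have s4 : r (w a) ≤ r (w (a + d)) := S.mono_le (by omega) (by omega) (by omega)
          have s5 : r (w a) ≤ r (w (a + d + 1)) := S.mono_le (by omega) (by omega) (by omega)
          have hne3 : b ≠ w (a + d + 1) := by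
            intro e
            rw [← e] at s5
            omega
          have h11 : ¬ O p0 b (w (a + d + 1)) := by
            intro h12
            exact h10 ⟨b, hbU, by omega, h9, h12⟩
          exact h.nn hne3 hb0 (S.w0 (by omega)) h11
      exact h.asym _ _ _ h8 (hind 12 (by omega))

end rightseq

end Pool.Agent.H53.Str
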